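import Mathlib

/-!
# The face lattice of the cone of non-negative polygonal measures is not determined by the oriented
# matroid

Take the vertices of a triangle and one point on each side. If the three cevians are concurrent
(midpoints), the cone has 12 facets (one for each chamber); if they are not, there is a 13th
chamber, and the cone has 13 facets. The oriented matroid is the same.
-/

set_option autoImplicit false

open MeasureTheory Set

namespace Pool.Agent.Results.MP_41af23_an.CevaSextuple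

/-! ### Faces of polyhedral cones -/

section faces

variable {E : Type*} [AddCommGroup E] [Module ℝ E]

/-- `F` is a (nonempty) face of the convex set `K`. -/
structure IsFace (K F : Set E) : Prop where
  subset : F ⊆ K
  nonempty : F.Nonempty
  convex : Convex ℝ F
  extreme : ∀ x ∈ K, ∀ y ∈ K, ∀ z ∈ F, z ∈ openSegment ℝ x y → x ∈ F ∧ y ∈ F

/-- The face lattice of `K`: the faces ordered by inclusion. -/
abbrev FaceLattice (K : Set E) : Type _ := {F : Set E // IsFace K F}

/-- `x` is not maximal, but all larger elements are. -/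
def Coat {α : Type*} [PartialOrder α] (x : α) : Prop := ¬ IsMax x ∧ ∀ y, x < y → IsMax y

theorem Coat.map {α β : Type*} [PartialOrder α] [PartialOrder β] (e : α ≃o β) {x : α}
    (h : Coat x) : Coat (e x) := by
  refine ⟨fun hm => h.1 ((OrderIso.isMax_apply e).1 hm), fun y hy => ?_⟩
  have h1 : x < e.symm y := by
    rw [← e.lt_iff_lt]
    simpa using hy
  have := h.2 _ h1
  rw [← OrderIso.isMax_apply e] at this
  simpa using this

/-- A polyhedral cone given by finitely many inequalities on a subspace, with an interior point. -/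
structure Poly (K : Set E) (m : ℕ) where
  M : Submodule ℝ E
  l : Fin m → E →ₗ[ℝ] ℝ
  mem : ∀ x, x ∈ K ↔ x ∈ M ∧ ∀ i, 0 ≤ l i x
  x0 : E
  x0M : x0 ∈ M
  x0pos : ∀ i, 0 < l i x0

variable {K : Set E} {m : ℕ} (p : Poly K m)

namespace Poly

include p

theorem convex : Convex ℝ K := by
  intro x hx y hy s t hs ht hst
  rw [p.mem] at hx hy ⊢
  refine ⟨p.M.add_mem (p.M.smul_mem _ hx.1) (p.M.smul_mem _ hy.1), fun i => ?_⟩
  rw [map_add, map_smul, map_smul, smul_eq_mul, smul_eq_mul]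
  have := mul_nonneg hs (hx.2 i)
  have := mul_nonneg ht (hy.2 i)
  linarith

theorem x0K : p.x0 ∈ K := (p.mem _).2 ⟨p.x0M, fun i => (p.x0pos i).le⟩

theorem face_top : IsFace K K :=
  ⟨subset_rfl, ⟨_, p.x0K⟩, p.convex, fun _ hx _ hy _ _ _ => ⟨hx, hy⟩⟩

/-- the face given by the equality `l i = 0` -/
def fc (i : Fin m) : Set E := {x | x ∈ K ∧ p.l i x = 0}

theorem face_fc (i : Fin m) : IsFace K (p.fc i) := by
  refine ⟨fun x hx => hx.1, ⟨0, ?_, map_zero _⟩, ?_, ?_⟩
  · rw [p.mem]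
    exact ⟨p.M.zero_mem, fun i => (map_zero (p.l i)).ge⟩
  · intro x hx y hy s t hs ht hst
    refine ⟨p.convex hx.1 hy.1 hs ht hst, ?_⟩
    rw [map_add, map_smul, map_smul, hx.2, hy.2, smul_zero, smul_zero, add_zero]
  · rintro x hx y hy z ⟨hz, hz0⟩ ⟨s, t, hs, ht, hst, rfl⟩
    rw [map_add, map_smul, map_smul, smul_eq_mul, smul_eq_mul] at hz0
    have h1 := ((p.mem x).1 hx).2 i
    have h2 := ((p.mem y).1 hy).2 i
    have h3 := mul_nonneg hs.le h1
    have h4 := mul_nonneg ht.le h2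
    refine ⟨⟨hx, ?_⟩, ⟨hy, ?_⟩⟩
    · have : s * p.l i x = 0 := by linarith
      exact (mul_eq_zero.1 this).resolve_left hs.ne'
    · have : t * p.l i y = 0 := by linarith
      exact (mul_eq_zero.1 this).resolve_left ht.ne'

/-- a face with an interior point is everything -/
theorem face_eq_of_pos {F : Set E} (hF : IsFace K F) {z : E} (hz : z ∈ F)
    (hpos : ∀ i, 0 < p.l i z) : F = K := by
  refine Set.Subset.antisymm hF.subset fun y hy => ?_
  have hy' := (p.mem y).1 hy
  have hzM := ((p.mem z).1 (hF.subset hz)).1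
  obtain ⟨e, he, hle⟩ : ∃ e : ℝ, 0 < e ∧ ∀ i, e * p.l i y ≤ p.l i z := by
    have h1 : ∀ i, ∃ e : ℝ, 0 < e ∧ e * p.l i y ≤ p.l i z := fun i => by
      refine ⟨p.l i z / (p.l i y + 1), div_pos (hpos i) (by linarith [hy'.2 i]), ?_⟩
      rw [div_mul_eq_mul_div, div_le_iff₀ (by linarith [hy'.2 i])]
      nlinarith [hy'.2 i, hpos i]
    choose e he1 he2 using h1
    rcases isEmpty_or_nonempty (Fin m) with hm | hm
    · exact ⟨1, one_pos, fun i => hm.elim i⟩
    · obtain ⟨i0, hi0⟩ := Finite.exists_min e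
      refine ⟨e i0, he1 i0, fun i => le_trans ?_ (he2 i)⟩
      exact mul_le_mul_of_nonneg_right (hi0 i) (hy'.2 i)
  have hw : z + e • (z - y) ∈ K := by
    rw [p.mem]
    refine ⟨p.M.add_mem hzM (p.M.smul_mem _ (p.M.sub_mem hzM hy'.1)), fun i => ?_⟩
    rw [map_add, map_smul, map_sub, smul_eq_mul]
    nlinarith [hle i, mul_nonneg he.le (hpos i).le]
  have hseg : z ∈ openSegment ℝ (z + e • (z - y)) y := by
    refine ⟨1 / (1 + e), e / (1 + e), by positivity, by positivity, by field_simp, ?_⟩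
    rw [smul_add, smul_smul, ← sub_eq_zero]
    have : (1 / (1 + e)) • z + (1 / (1 + e) * e) • (z - y) + (e / (1 + e)) • y - z =
        (1 / (1 + e) + 1 / (1 + e) * e - 1) • z + (e / (1 + e) - 1 / (1 + e) * e) • y := by
      module
    rw [this]
    have h1 : 1 / (1 + e) + 1 / (1 + e) * e - 1 = 0 := by field_simp; ring
    have h2 : e / (1 + e) - 1 / (1 + e) * e = 0 := by field_simp; ring
    rw [h1, h2, zero_smul, zero_smul, add_zero]
  exact (hF.extreme _ hw y hy z hz hseg).2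

theorem dich {F : Set E} (hF : IsFace K F) : F = K ∨ ∃ i, F ⊆ p.fc i := by
  by_contra hcon
  push Not at hcon
  obtain ⟨h1, h2⟩ := hcon
  have h3 : ∀ i, ∃ x ∈ F, 0 < p.l i x := fun i => by
    obtain ⟨x, hx, hx'⟩ := Set.not_subset.1 (h2 i)
    refine ⟨x, hx, lt_of_le_of_ne (((p.mem x).1 (hF.subset hx)).2 i) fun h => hx' ?_⟩
    exact ⟨hF.subset hx, h.symm⟩
  choose x hxF hx using h3
  rcases Nat.eq_zero_or_pos m with hm | hm
  · obtain ⟨z, hz⟩ := hF.nonempty
    refine h1 (p.face_eq_of_pos hF hz fun i => ?_)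
    subst hm
    exact i.elim0
  · have hm' : (0 : ℝ) < m := by exact_mod_cast hm
    have hz : ∑ i : Fin m, (1 / (m : ℝ)) • x i ∈ F :=
      hF.convex.sum_mem (fun _ _ => by positivity) (by
        rw [Finset.sum_const, Finset.card_univ, Fintype.card_fin, nsmul_eq_mul]
        field_simp) fun i _ => hxF i
    refine h1 (p.face_eq_of_pos hF hz fun j => ?_)
    rw [map_sum]
    refine Finset.sum_pos' (fun i _ => ?_) ⟨j, Finset.mem_univ j, ?_⟩
    · rw [map_smul, smul_eq_mul]
      exact mul_nonneg (by positivity) (((p.mem _).1 (hF.subset (hxF i))).2 j)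
    · rw [map_smul, smul_eq_mul]
      exact mul_pos (by positivity) (hx j)

theorem fc_ne (i : Fin m) : p.fc i ≠ K := fun h => by
  have h1 : p.x0 ∈ p.fc i := by rw [h]; exact p.x0K
  exact (p.x0pos i).ne' h1.2

theorem isMax_iff (F : FaceLattice K) : IsMax F ↔ F.1 = K := by
  constructor
  · intro h
    have h1 : F ≤ (⟨K, p.face_top⟩ : FaceLattice K) := F.2.subset
    exact Set.Subset.antisymm F.2.subset (h h1)
  · intro h G _
    show G.1 ⊆ F.1
    rw [h]
    exact G.2.subset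

/-- every coatom is given by one of the inequalities -/
theorem coat_le (F : FaceLattice K) (h : Coat F) : ∃ i, F.1 = p.fc i := by
  obtain ⟨h1, h2⟩ := h
  rw [p.isMax_iff] at h1
  obtain ⟨i, hi⟩ := (p.dich F.2).resolve_left h1
  refine ⟨i, ?_⟩
  by_contra hne
  have hlt : F < (⟨p.fc i, p.face_fc i⟩ : FaceLattice K) :=
    lt_of_le_of_ne hi fun h => hne (congrArg Subtype.val h)
  have := h2 _ hlt
  rw [p.isMax_iff] at this
  exact p.fc_ne i this

/-- an irredundant inequality gives a coatom -/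
theorem coat_fc (hw : ∀ j, ∃ x ∈ K, p.l j x = 0 ∧ ∀ i, i ≠ j → 0 < p.l i x) (j : Fin m) :
    Coat (⟨p.fc j, p.face_fc j⟩ : FaceLattice K) := by
  refine ⟨fun h => p.fc_ne j ((p.isMax_iff _).1 h), fun G hG => ?_⟩
  rw [p.isMax_iff]
  by_contra hne
  obtain ⟨i, hi⟩ := (p.dich G.2).resolve_left hne
  have h1 : p.fc j ⊆ G.1 := hG.le
  have h2 : p.fc j ⊆ p.fc i := h1.trans hi
  have hij : i = j := by
    by_contra hij
    obtain ⟨x, hx, hx0, hx1⟩ := hw j
    have h3 := h2 (show x ∈ p.fc j from ⟨hx, hx0⟩)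
    exact (hx1 i hij).ne' h3.2
  subst hij
  exact hG.ne (Subtype.ext (Set.Subset.antisymm h1 hi))

theorem fc_inj (hw : ∀ j, ∃ x ∈ K, p.l j x = 0 ∧ ∀ i, i ≠ j → 0 < p.l i x) :
    Function.Injective p.fc := by
  intro i j hij
  by_contra hne
  obtain ⟨x, hx, hx0, hx1⟩ := hw j
  have h3 : x ∈ p.fc i := by
    rw [hij]
    exact ⟨hx, hx0⟩
  exact (hx1 i hne).ne' h3.2

end Poly

/-- The number of facets distinguishes the face lattices. -/
theorem not_iso {E' : Type*} [AddCommGroup E'] [Module ℝ E'] {K' : Set E'} {m m' : ℕ}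
    (p : Poly K m) (p' : Poly K' m')
    (hw : ∀ j, ∃ x ∈ K', p'.l j x = 0 ∧ ∀ i, i ≠ j → 0 < p'.l i x) (hlt : m < m') :
    ¬ Nonempty (FaceLattice K ≃o FaceLattice K') := by
  rintro ⟨e⟩
  have h1 : ∀ j : Fin m', ∃ i : Fin m,
      (e.symm ⟨p'.fc j, p'.face_fc j⟩).1 = p.fc i := fun j =>
    p.coat_le _ ((p'.coat_fc hw j).map e.symm)
  choose g hg using h1
  have hinj : Function.Injective g := by
    intro i j hij
    apply p'.fc_inj hw
    have h2 : e.symm ⟨p'.fc i, p'.face_fc i⟩ = e.symm ⟨p'.fc j, p'.face_fc j⟩ :=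
      Subtype.ext (by rw [hg, hg, hij])
    exact congrArg Subtype.val (e.symm.injective h2)
  have := Fintype.card_le_of_injective g hinj
  rw [Fintype.card_fin, Fintype.card_fin] at this
  omega

end faces


section plane

/-- The determinant of the matrix with rows `(1, 1, 1)`, `(p.re, q.re, z.re)`,
`(p.im, q.im, z.im)`. -/
def det3 (p q z : ℂ) : ℝ := (q.re - p.re) * (z.im - p.im) - (q.im - p.im) * (z.re - p.re)

theorem det3_comb (p q x y : ℂ) {s t : ℝ} (h : s + t = 1) :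
    det3 p q (s • x + t • y) = s * det3 p q x + t * det3 p q y := by
  unfold det3
  simp only [Complex.add_re, Complex.add_im, Complex.smul_re, Complex.smul_im, smul_eq_mul]
  obtain rfl : s = 1 - t := by linarith
  ring

theorem det3_swap (p q z : ℂ) : det3 q p z = - det3 p q z := by unfold det3; ring

theorem det3_rot (p q z : ℂ) : det3 q z p = det3 p q z := by unfold det3; ring

theorem det3_self (p z : ℂ) : det3 p p z = 0 := by unfold det3; ring

theorem convex_half (p q : ℂ) : Convex ℝ {z | 0 ≤ det3 p q z} := by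
  intro x hx y hy s t hs ht hst
  rw [Set.mem_ofPred_eq, det3_comb p q x y hst]
  exact add_nonneg (mul_nonneg hs hx) (mul_nonneg ht hy)

theorem hull3_sub {a b c z : ℂ} (h : 0 ≤ det3 a b c) (hz : z ∈ convexHull ℝ {a, b, c}) :
    0 ≤ det3 a b z ∧ 0 ≤ det3 b c z ∧ 0 ≤ det3 c a z := by
  have h1 : convexHull ℝ {a, b, c} ⊆ {z | 0 ≤ det3 a b z} ∩ ({z | 0 ≤ det3 b c z} ∩
      {z | 0 ≤ det3 c a z}) := by
    refine convexHull_min ?_ ((convex_half a b).inter ((convex_half b c).inter (convex_half c a)))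
    have e1 : det3 b c a = det3 a b c := det3_rot a b c
    have e2 : det3 c a b = det3 a b c := by unfold det3; ring
    have e3 : ∀ p q : ℂ, det3 p q p = 0 := fun p q => by unfold det3; ring
    have e4 : ∀ p q : ℂ, det3 p q q = 0 := fun p q => by unfold det3; ring
    rintro w (rfl | rfl | rfl)
    · exact ⟨(e3 _ _).ge, by rw [Set.mem_ofPred_eq, e1]; exact h, (e4 _ _).ge⟩
    · exact ⟨(e4 _ _).ge, (e3 _ _).ge, by rw [Set.mem_ofPred_eq, e2]; exact h⟩
    · exact ⟨h, (e4 _ _).ge, (e3 _ _).ge⟩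
  exact ⟨(h1 hz).1, (h1 hz).2.1, (h1 hz).2.2⟩

theorem hull3_iff {a b c z : ℂ} (h : 0 < det3 a b c) : z ∈ convexHull ℝ {a, b, c} ↔
    0 ≤ det3 a b z ∧ 0 ≤ det3 b c z ∧ 0 ≤ det3 c a z := by
  refine ⟨hull3_sub h.le, fun ⟨h1, h2, h3⟩ => ?_⟩
  have hsum : det3 b c z + det3 c a z + det3 a b z = det3 a b c := by unfold det3; ring
  have hz : z = ∑ i : Fin 3, (![det3 b c z / det3 a b c, det3 c a z / det3 a b c,
      det3 a b z / det3 a b c] : Fin 3 → ℝ) i • (![a, b, c] : Fin 3 → ℂ) i := by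
    rw [Fin.sum_univ_three]
    simp only [Matrix.cons_val]
    apply Complex.ext
    · simp only [Complex.add_re, Complex.smul_re, smul_eq_mul]
      rw [div_mul_eq_mul_div, div_mul_eq_mul_div, div_mul_eq_mul_div, ← add_div, ← add_div,
        eq_div_iff h.ne']
      unfold det3
      ring
    · simp only [Complex.add_im, Complex.smul_im, smul_eq_mul]
      rw [div_mul_eq_mul_div, div_mul_eq_mul_div, div_mul_eq_mul_div, ← add_div, ← add_div,
        eq_div_iff h.ne']
      unfold det3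
      ring
  rw [hz]
  refine (convex_convexHull ℝ _).sum_mem (fun i _ => ?_) ?_ fun i _ => ?_
  · fin_cases i
    · exact div_nonneg h2 h.le
    · exact div_nonneg h3 h.le
    · exact div_nonneg h1 h.le
  · rw [Fin.sum_univ_three]
    simp only [Matrix.cons_val]
    rw [← add_div, ← add_div, hsum, div_self h.ne']
  · refine subset_convexHull ℝ _ ?_
    fin_cases i <;> simp

theorem line_null (A B G : ℝ) (h : A ≠ 0 ∨ B ≠ 0) :
    volume {z : ℂ | A * z.re + B * z.im + G = 0} = 0 := by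
  rcases Set.eq_empty_or_nonempty {z : ℂ | A * z.re + B * z.im + G = 0} with he | ⟨z0, hz0⟩
  · rw [he, measure_empty]
  rw [Set.mem_ofPred_eq] at hz0
  obtain ⟨L, hL⟩ : ∃ L : ℂ →ₗ[ℝ] ℝ, ∀ z, L z = A * z.re + B * z.im :=
    ⟨A • Complex.reLm + B • Complex.imLm, fun z => by simp⟩
  have hs : {z : ℂ | A * z.re + B * z.im + G = 0} =
      (AffineSubspace.mk' z0 (LinearMap.ker L) : Set ℂ) := by
    ext z
    rw [SetLike.mem_coe, AffineSubspace.mem_mk', vsub_eq_sub, LinearMap.mem_ker, map_sub, hL, hL,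
      Set.mem_ofPred_eq]
    constructor <;> intro h <;> linarith
  rw [hs]
  refine Measure.addHaar_affineSubspace volume _ fun htop => ?_
  have h1 : ∀ z : ℂ, A * z.re + B * z.im + G = 0 := fun z => by
    have h2 : z ∈ AffineSubspace.mk' z0 (LinearMap.ker L) := by rw [htop]; trivial
    rw [← SetLike.mem_coe, ← hs] at h2
    exact h2
  have h2 := h1 0
  have h3 := h1 1
  have h4 := h1 Complex.I
  simp at h2 h3 h4
  rcases h with h | h
  · exact h (by linarith)
  · exact h (by linarith)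

instance finite_tri (a b c : ℂ) :
    IsFiniteMeasure ((volume : Measure ℂ).restrict (convexHull ℝ {a, b, c})) := ⟨by
  rw [Measure.restrict_apply_univ]
  exact ((Set.toFinite _).isCompact_convexHull ℝ).measure_lt_top⟩

/-- The standard measure `χ_Δ dx dy` of the closed triangle `Δ` with vertices `a`, `b`, `c`. -/
noncomputable def tri (a b c : ℂ) : SignedMeasure ℂ :=
  ((volume : Measure ℂ).restrict (convexHull ℝ {a, b, c})).toSignedMeasure

theorem meas_tri (a b c : ℂ) : MeasurableSet (convexHull ℝ {a, b, c}) :=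
  ((Set.toFinite _).isCompact_convexHull ℝ).isClosed.measurableSet

theorem tri_apply (a b c : ℂ) {A : Set ℂ} (hA : MeasurableSet A) :
    tri a b c A = (volume (A ∩ convexHull ℝ {a, b, c})).toReal := by
  unfold tri
  rw [Measure.toSignedMeasure_apply_measurable hA, Measure.real, Measure.restrict_apply hA]

/-- The real linear span of the standard measures of the triangles with vertices in `S`. -/
noncomputable def polyMeasures (S : Set ℂ) : Submodule ℝ (SignedMeasure ℂ) :=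
  Submodule.span ℝ {x | ∃ a ∈ S, ∃ b ∈ S, ∃ c ∈ S, x = tri a b c}

/-- The cone of the non-negative measures of `polyMeasures S`. -/
noncomputable def Kpos (S : Set ℂ) : Set (SignedMeasure ℂ) := {x | x ∈ polyMeasures S ∧ 0 ≤ x}

/-- the sign -/
def sg : Bool → ℝ
  | true => 1
  | false => -1

/-- A sextuple of points, the lines through two of them and the chambers. -/
structure Config (P : Fin 6 → ℂ) (m : ℕ) where
  A : Fin 9 → ℝ
  B : Fin 9 → ℝ
  G : Fin 9 → ℝ
  ne : ∀ l, A l ≠ 0 ∨ B l ≠ 0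
  line : ∀ i j, i ≠ j → ∃ l κ, κ ≠ 0 ∧
    ∀ z : ℂ, det3 (P i) (P j) z = κ * (A l * z.re + B l * z.im + G l)
  W : Fin m → ℂ
  b : Fin m → Fin 9 → Bool
  posW : ∀ c l, 0 < sg (b c l) * (A l * (W c).re + B l * (W c).im + G l)
  binj : Function.Injective b
  enum : ∀ z ∈ convexHull ℝ (range P), (∀ l, A l * z.re + B l * z.im + G l ≠ 0) →
    ∃ c, ∀ l, 0 < sg (b c l) * (A l * z.re + B l * z.im + G l)
  big : ∀ c, W c ∈ convexHull ℝ {P 0, P 1, P 2}

namespace Config

variable {P : Fin 6 → ℂ} {m : ℕ} (C : Config P m)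

/-- the chambers -/
def cell (c : Fin m) : Set ℂ := {z | ∀ l, 0 < sg (C.b c l) * (C.A l * z.re + C.B l * z.im + C.G l)}

theorem cell_open (c : Fin m) : IsOpen (C.cell c) := by
  unfold cell
  rw [Set.ofPred_forall]
  refine isOpen_iInter_of_finite fun l => isOpen_lt continuous_const ?_
  fun_prop

theorem cell_meas (c : Fin m) : MeasurableSet (C.cell c) := (C.cell_open c).measurableSet

theorem W_mem (c : Fin m) : C.W c ∈ C.cell c := C.posW c

theorem cell_disj {c c' : Fin m} (h : c ≠ c') {z : ℂ} (h1 : z ∈ C.cell c) (h2 : z ∈ C.cell c') :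
    False := by
  obtain ⟨l, hl⟩ : ∃ l, C.b c l ≠ C.b c' l := by
    by_contra hcon
    push Not at hcon
    exact h (C.binj (funext hcon))
  have h3 := h1 l
  have h4 := h2 l
  cases hb : C.b c l <;> cases hb' : C.b c' l <;> rw [hb] at h3 hl <;> rw [hb'] at h4 hl <;>
    simp only [sg] at h3 h4 <;> first | exact hl rfl | linarith

theorem cell_ne {c : Fin m} {z : ℂ} (h : z ∈ C.cell c) (l : Fin 9) :
    C.A l * z.re + C.B l * z.im + C.G l ≠ 0 := by
  intro h0
  have := h l
  rw [h0, mul_zero] at this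
  exact lt_irrefl _ this

theorem same {c : Fin m} {z w : ℂ} (hz : z ∈ C.cell c) (hw : w ∈ C.cell c) (l : Fin 9) :
    0 < (C.A l * z.re + C.B l * z.im + C.G l) * (C.A l * w.re + C.B l * w.im + C.G l) := by
  have h3 := hz l
  have h4 := hw l
  cases hb : C.b c l <;> rw [hb] at h3 h4 <;> simp only [sg] at h3 h4
  · refine mul_pos_of_neg_of_neg ?_ ?_ <;> linarith
  · refine mul_pos ?_ ?_ <;> linarith

/-- the determinants do not vanish in a chamber and have constant sign -/
theorem det_ne {z : ℂ} (hz : ∀ l, C.A l * z.re + C.B l * z.im + C.G l ≠ 0) {i j : Fin 6}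
    (hij : i ≠ j) : det3 (P i) (P j) z ≠ 0 := by
  obtain ⟨l, κ, hκ, h⟩ := C.line i j hij
  rw [h]
  exact mul_ne_zero hκ (hz l)

theorem det_same {c : Fin m} {z w : ℂ} (hz : z ∈ C.cell c) (hw : w ∈ C.cell c) {i j : Fin 6}
    (h0 : 0 ≤ det3 (P i) (P j) z) : 0 ≤ det3 (P i) (P j) w := by
  rcases eq_or_ne i j with rfl | hij
  · rw [det3_self]
  obtain ⟨l, κ, hκ, h⟩ := C.line i j hij
  have h1 := C.same hz hw l
  have h2 : 0 < det3 (P i) (P j) z * det3 (P i) (P j) w := by
    rw [h, h]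
    have h3 : 0 < κ ^ 2 := by positivity
    have h4 := mul_pos h3 h1
    nlinarith
  have h3 : 0 < det3 (P i) (P j) z := lt_of_le_of_ne h0 (C.det_ne (C.cell_ne hz) hij).symm
  exact ((mul_pos_iff_of_pos_left h3).1 h2).le

theorem not_mem_of_zero {z : ℂ} (hz : ∀ l, C.A l * z.re + C.B l * z.im + C.G l ≠ 0)
    {i j k : Fin 6} (h0 : det3 (P i) (P j) (P k) = 0) : z ∉ convexHull ℝ {P i, P j, P k} := by
  intro hT
  obtain ⟨h1, h2, h3⟩ := hull3_sub h0.ge hT
  have hT' : z ∈ convexHull ℝ {P j, P i, P k} := by rwa [Set.insert_comm]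
  obtain ⟨h4, h5, h6⟩ := hull3_sub (by rw [det3_swap, h0, neg_zero]) hT'
  have e1 : det3 (P i) (P j) z = 0 := le_antisymm (by rw [det3_swap] at h4; linarith) h1
  have e2 : det3 (P j) (P k) z = 0 := le_antisymm (by rw [det3_swap] at h6; linarith) h2
  rcases eq_or_ne i j with rfl | hij
  · rcases eq_or_ne i k with rfl | hik
    · rw [Set.pair_eq_singleton, Set.pair_eq_singleton, convexHull_singleton,
        Set.mem_singleton_iff] at hT
      obtain ⟨j, hj⟩ := exists_ne i
      refine C.det_ne hz hj ?_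
      rw [hT]
      unfold det3
      ring
    · exact C.det_ne hz hik e2
  · exact C.det_ne hz hij e1

theorem mem_tri {c : Fin m} {z w : ℂ} (hz : z ∈ C.cell c) (hw : w ∈ C.cell c) {i j k : Fin 6}
    (hT : z ∈ convexHull ℝ {P i, P j, P k}) : w ∈ convexHull ℝ {P i, P j, P k} := by
  rcases lt_trichotomy (det3 (P i) (P j) (P k)) 0 with h | h | h
  · have h' : 0 < det3 (P j) (P i) (P k) := by rw [det3_swap]; linarith
    rw [Set.insert_comm] at hT ⊢
    rw [hull3_iff h'] at hT ⊢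
    exact ⟨C.det_same hz hw hT.1, C.det_same hz hw hT.2.1, C.det_same hz hw hT.2.2⟩
  · exact absurd hT (C.not_mem_of_zero (C.cell_ne hz) h)
  · rw [hull3_iff h] at hT ⊢
    exact ⟨C.det_same hz hw hT.1, C.det_same hz hw hT.2.1, C.det_same hz hw hT.2.2⟩

theorem cell_sub (c : Fin m) : C.cell c ⊆ convexHull ℝ {P 0, P 1, P 2} := fun _ hz =>
  C.mem_tri (C.W_mem c) hz (C.big c)

theorem cell_fin (c : Fin m) (A : Set ℂ) : volume (A ∩ C.cell c) ≠ ⊤ := by
  refine ne_top_of_le_ne_top ?_ (measure_mono (Set.inter_subset_right.trans (C.cell_sub c)))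
  exact ((Set.toFinite _).isCompact_convexHull ℝ).measure_lt_top.ne

/-- the area of a chamber -/
noncomputable def v (c : Fin m) : ℝ := (volume (C.cell c)).toReal

theorem v_pos (c : Fin m) : 0 < C.v c := by
  refine ENNReal.toReal_pos ((C.cell_open c).measure_pos volume ⟨_, C.W_mem c⟩).ne' ?_
  have := C.cell_fin c Set.univ
  rwa [Set.univ_inter] at this

/-- the measure of the part of a set in a chamber -/
noncomputable def nu (c : Fin m) (A : Set ℂ) : ℝ := (volume (A ∩ C.cell c)).toReal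

theorem nu_nonneg (c : Fin m) (A : Set ℂ) : 0 ≤ C.nu c A := ENNReal.toReal_nonneg

theorem nu_self (c : Fin m) : C.nu c (C.cell c) = C.v c := by
  unfold nu v
  rw [Set.inter_self]

theorem nu_ne {c c' : Fin m} (h : c ≠ c') : C.nu c (C.cell c') = 0 := by
  unfold nu
  have : C.cell c' ∩ C.cell c = ∅ := by
    rw [Set.eq_empty_iff_forall_notMem]
    exact fun z hz => C.cell_disj h hz.2 hz.1
  rw [this, measure_empty, ENNReal.toReal_zero]

open Classical in
theorem tri_formula (i j k : Fin 6) {A : Set ℂ} (hA : MeasurableSet A) :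
    tri (P i) (P j) (P k) A =
      ∑ c, (if C.W c ∈ convexHull ℝ {P i, P j, P k} then 1 else 0) * C.nu c A := by
  rw [tri_apply _ _ _ hA]
  obtain ⟨T, hT⟩ : ∃ T, T = convexHull ℝ {P i, P j, P k} := ⟨_, rfl⟩
  rw [← hT]
  obtain ⟨I, hI⟩ : ∃ I : Finset (Fin m), I = Finset.univ.filter fun c => C.W c ∈ T := ⟨_, rfl⟩
  have h1 : volume (A ∩ T) = volume (⋃ c ∈ I, A ∩ C.cell c) := by
    refine le_antisymm ?_ (measure_mono ?_)
    · have hsub : A ∩ T ⊆ (⋃ c ∈ I, A ∩ C.cell c) ∪
          ⋃ l : Fin 9, {z : ℂ | C.A l * z.re + C.B l * z.im + C.G l = 0} := by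
        rintro z ⟨hzA, hzT⟩
        by_cases hz : ∀ l, C.A l * z.re + C.B l * z.im + C.G l ≠ 0
        · left
          have hzP : z ∈ convexHull ℝ (range P) := by
            rw [hT] at hzT
            refine convexHull_mono ?_ hzT
            rintro _ (rfl | rfl | rfl) <;> exact ⟨_, rfl⟩
          obtain ⟨c, hc⟩ := C.enum z hzP hz
          rw [Set.mem_iUnion₂]
          refine ⟨c, ?_, hzA, hc⟩
          rw [hI, Finset.mem_filter]
          refine ⟨Finset.mem_univ c, ?_⟩
          rw [hT] at hzT ⊢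
          exact C.mem_tri hc (C.W_mem c) hzT
        · right
          push Not at hz
          rw [Set.mem_iUnion]
          exact hz
      refine (measure_mono hsub).trans ((measure_union_le _ _).trans ?_)
      have h0 : volume (⋃ l : Fin 9, {z : ℂ | C.A l * z.re + C.B l * z.im + C.G l = 0}) = 0 :=
        measure_iUnion_null fun l => line_null _ _ _ (C.ne l)
      rw [h0, add_zero]
    · intro z hz
      rw [Set.mem_iUnion₂] at hz
      obtain ⟨c, hc, hzA, hzc⟩ := hz
      rw [hI, Finset.mem_filter] at hc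
      refine ⟨hzA, ?_⟩
      rw [hT] at hc ⊢
      exact C.mem_tri (C.W_mem c) hzc hc.2
  rw [h1, measure_biUnion_finset, ENNReal.toReal_sum fun c _ => C.cell_fin c A]
  · rw [hI, Finset.sum_filter]
    refine Finset.sum_congr rfl fun c _ => ?_
    split_ifs
    · rw [one_mul]; rfl
    · rw [zero_mul]
  · intro c _ c' _ hcc
    rw [Function.onFun, Set.disjoint_left]
    exact fun z hz hz' => C.cell_disj hcc hz.2 hz'.2
  · exact fun c _ => hA.inter (C.cell_meas c)

theorem rep {x : SignedMeasure ℂ} (hx : x ∈ polyMeasures (range P)) : ∃ d : Fin m → ℝ,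
    ∀ A, MeasurableSet A → x A = ∑ c, d c * C.nu c A := by
  classical
  unfold polyMeasures at hx
  induction hx using Submodule.span_induction with
  | mem x hx =>
    obtain ⟨_, ⟨i, rfl⟩, _, ⟨j, rfl⟩, _, ⟨k, rfl⟩, rfl⟩ := hx
    exact ⟨_, fun A hA => C.tri_formula i j k hA⟩
  | zero => exact ⟨fun _ => 0, fun A _ => by simp⟩
  | add x y _ _ hx hy =>
    obtain ⟨d, hd⟩ := hx
    obtain ⟨e, he⟩ := hy
    refine ⟨fun c => d c + e c, fun A hA => ?_⟩
    rw [add_apply, hd A hA, he A hA, ← Finset.sum_add_distrib]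
    exact Finset.sum_congr rfl fun c _ => (add_mul _ _ _).symm
  | smul r x _ hx =>
    obtain ⟨d, hd⟩ := hx
    refine ⟨fun c => r * d c, fun A hA => ?_⟩
    rw [smul_apply, hd A hA, smul_eq_mul, Finset.mul_sum]
    exact Finset.sum_congr rfl fun c _ => (mul_assoc _ _ _).symm

/-- the value on a chamber, as a linear form -/
noncomputable def ev (c : Fin m) : SignedMeasure ℂ →ₗ[ℝ] ℝ where
  toFun x := x (C.cell c)
  map_add' x y := by simp
  map_smul' r x := by simp

theorem ev_of_rep {x : SignedMeasure ℂ} {d : Fin m → ℝ}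
    (h : ∀ A, MeasurableSet A → x A = ∑ c, d c * C.nu c A) (c : Fin m) :
    C.ev c x = d c * C.v c := by
  show x (C.cell c) = _
  rw [h _ (C.cell_meas c), Finset.sum_eq_single c, C.nu_self]
  · intro c' _ hc
    rw [C.nu_ne hc, mul_zero]
  · intro hc
    exact absurd (Finset.mem_univ c) hc

open Classical in
theorem ev_tri (c : Fin m) (i j k : Fin 6) : C.ev c (tri (P i) (P j) (P k)) =
    (if C.W c ∈ convexHull ℝ {P i, P j, P k} then 1 else 0) * C.v c :=
  C.ev_of_rep (fun _ hA => C.tri_formula i j k hA) c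

theorem tri_mem (i j k : Fin 6) : tri (P i) (P j) (P k) ∈ polyMeasures (range P) :=
  Submodule.subset_span ⟨_, ⟨i, rfl⟩, _, ⟨j, rfl⟩, _, ⟨k, rfl⟩, rfl⟩

/-- the cone is polyhedral, the inequalities are given by the chambers -/
noncomputable def poly : Poly (Kpos (range P)) m where
  M := polyMeasures (range P)
  l := C.ev
  mem x := by
    constructor
    · rintro ⟨h1, h2⟩
      refine ⟨h1, fun c => ?_⟩
      have h3 : 0 ≤ x (C.cell c) := by
        simpa using (VectorMeasure.le_iff.1 h2) (C.cell c) (C.cell_meas c)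
      exact h3
    · rintro ⟨h1, h2⟩
      refine ⟨h1, ?_⟩
      obtain ⟨d, hd⟩ := C.rep h1
      rw [VectorMeasure.le_iff]
      intro A hA
      rw [hd A hA, zero_apply]
      refine Finset.sum_nonneg fun c _ => mul_nonneg ?_ (C.nu_nonneg c A)
      have h3 := h2 c
      rw [C.ev_of_rep hd c] at h3
      exact nonneg_of_mul_nonneg_left h3 (C.v_pos c)
  x0 := tri (P 0) (P 1) (P 2)
  x0M := tri_mem 0 1 2
  x0pos c := by
    rw [C.ev_tri, if_pos (C.big c), one_mul]
    exact C.v_pos c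

end Config

end plane

section examples

theorem all9 {p : Fin 9 → Prop} (h0 : p 0) (h1 : p 1) (h2 : p 2) (h3 : p 3) (h4 : p 4) (h5 : p 5)
    (h6 : p 6) (h7 : p 7) (h8 : p 8) : ∀ l, p l
  | 0 => h0
  | 1 => h1
  | 2 => h2
  | 3 => h3
  | 4 => h4
  | 5 => h5
  | 6 => h6
  | 7 => h7
  | 8 => h8

/-- The points of the configuration `₁`. -/
def P₁ : Fin 6 → ℂ := ![⟨0, 0⟩, ⟨6, 0⟩, ⟨0, 6⟩, ⟨3, 3⟩, ⟨0, 3⟩, ⟨3, 0⟩]

def A₁ : Fin 9 → ℝ := ![0, (-1), 1, (-1), (-1), 2, 0, 1, (-1)]

def B₁ : Fin 9 → ℝ := ![1, (-1), 0, 1, (-2), 1, (-1), 1, 0]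

def G₁ : Fin 9 → ℝ := ![0, 6, 0, 0, 6, (-6), 3, (-3), 3]

noncomputable def W₁ : Fin 12 → ℂ := ![⟨(1/2), 1⟩, ⟨(1/2), (7/2)⟩, ⟨1, (1/2)⟩, ⟨1, (9/2)⟩, ⟨(3/2), 2⟩, ⟨(3/2), (5/2)⟩, ⟨2, (3/2)⟩, ⟨2, (5/2)⟩, ⟨(5/2), (3/2)⟩, ⟨(5/2), 2⟩, ⟨(7/2), (1/2)⟩, ⟨(7/2), (3/2)⟩]

def b₁ : Fin 12 → Fin 9 → Bool := ![![true, true, true, true, true, false, true, false, true],
  ![true, true, true, true, false, false, false, true, true],
  ![true, true, true, false, true, false, true, false, true],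
  ![true, true, true, true, false, true, false, true, true],
  ![true, true, true, true, true, false, true, true, true],
  ![true, true, true, true, false, false, true, true, true],
  ![true, true, true, false, true, false, true, true, true],
  ![true, true, true, true, false, true, true, true, true],
  ![true, true, true, false, true, true, true, true, true],
  ![true, true, true, false, false, true, true, true, true],
  ![true, true, true, false, true, true, true, true, false],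
  ![true, true, true, false, false, true, true, true, false]]

theorem line₁ : ∀ i j : Fin 6, i ≠ j → ∃ (l : Fin 9) (κ : ℝ), κ ≠ 0 ∧
    ∀ z : ℂ, det3 (P₁ i) (P₁ j) z = κ * (A₁ l * z.re + B₁ l * z.im + G₁ l)
  | 0, 0, h => absurd rfl h
  | 0, 1, _ => ⟨0, 6, by norm_num, fun z => by
      simp only [det3, P₁, A₁, B₁, G₁, Matrix.cons_val]; ring⟩
  | 0, 2, _ => ⟨2, (-6), by norm_num, fun z => by
      simp only [det3, P₁, A₁, B₁, G₁, Matrix.cons_val]; ring⟩
  | 0, 3, _ => ⟨3, 3, by norm_num, fun z => by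
      simp only [det3, P₁, A₁, B₁, G₁, Matrix.cons_val]; ring⟩
  | 0, 4, _ => ⟨2, (-3), by norm_num, fun z => by
      simp only [det3, P₁, A₁, B₁, G₁, Matrix.cons_val]; ring⟩
  | 0, 5, _ => ⟨0, 3, by norm_num, fun z => by
      simp only [det3, P₁, A₁, B₁, G₁, Matrix.cons_val]; ring⟩
  | 1, 0, _ => ⟨0, (-6), by norm_num, fun z => by
      simp only [det3, P₁, A₁, B₁, G₁, Matrix.cons_val]; ring⟩
  | 1, 1, h => absurd rfl h
  | 1, 2, _ => ⟨1, 6, by norm_num, fun z => by
      simp only [det3, P₁, A₁, B₁, G₁, Matrix.cons_val]; ring⟩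
  | 1, 3, _ => ⟨1, 3, by norm_num, fun z => by
      simp only [det3, P₁, A₁, B₁, G₁, Matrix.cons_val]; ring⟩
  | 1, 4, _ => ⟨4, 3, by norm_num, fun z => by
      simp only [det3, P₁, A₁, B₁, G₁, Matrix.cons_val]; ring⟩
  | 1, 5, _ => ⟨0, (-3), by norm_num, fun z => by
      simp only [det3, P₁, A₁, B₁, G₁, Matrix.cons_val]; ring⟩
  | 2, 0, _ => ⟨2, 6, by norm_num, fun z => by
      simp only [det3, P₁, A₁, B₁, G₁, Matrix.cons_val]; ring⟩
  | 2, 1, _ => ⟨1, (-6), by norm_num, fun z => by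
      simp only [det3, P₁, A₁, B₁, G₁, Matrix.cons_val]; ring⟩
  | 2, 2, h => absurd rfl h
  | 2, 3, _ => ⟨1, (-3), by norm_num, fun z => by
      simp only [det3, P₁, A₁, B₁, G₁, Matrix.cons_val]; ring⟩
  | 2, 4, _ => ⟨2, 3, by norm_num, fun z => by
      simp only [det3, P₁, A₁, B₁, G₁, Matrix.cons_val]; ring⟩
  | 2, 5, _ => ⟨5, 3, by norm_num, fun z => by
      simp only [det3, P₁, A₁, B₁, G₁, Matrix.cons_val]; ring⟩
  | 3, 0, _ => ⟨3, (-3), by norm_num, fun z => by
      simp only [det3, P₁, A₁, B₁, G₁, Matrix.cons_val]; ring⟩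
  | 3, 1, _ => ⟨1, (-3), by norm_num, fun z => by
      simp only [det3, P₁, A₁, B₁, G₁, Matrix.cons_val]; ring⟩
  | 3, 2, _ => ⟨1, 3, by norm_num, fun z => by
      simp only [det3, P₁, A₁, B₁, G₁, Matrix.cons_val]; ring⟩
  | 3, 3, h => absurd rfl h
  | 3, 4, _ => ⟨6, 3, by norm_num, fun z => by
      simp only [det3, P₁, A₁, B₁, G₁, Matrix.cons_val]; ring⟩
  | 3, 5, _ => ⟨8, (-3), by norm_num, fun z => by
      simp only [det3, P₁, A₁, B₁, G₁, Matrix.cons_val]; ring⟩
  | 4, 0, _ => ⟨2, 3, by norm_num, fun z => by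
      simp only [det3, P₁, A₁, B₁, G₁, Matrix.cons_val]; ring⟩
  | 4, 1, _ => ⟨4, (-3), by norm_num, fun z => by
      simp only [det3, P₁, A₁, B₁, G₁, Matrix.cons_val]; ring⟩
  | 4, 2, _ => ⟨2, (-3), by norm_num, fun z => by
      simp only [det3, P₁, A₁, B₁, G₁, Matrix.cons_val]; ring⟩
  | 4, 3, _ => ⟨6, (-3), by norm_num, fun z => by
      simp only [det3, P₁, A₁, B₁, G₁, Matrix.cons_val]; ring⟩
  | 4, 4, h => absurd rfl h
  | 4, 5, _ => ⟨7, 3, by norm_num, fun z => by
      simp only [det3, P₁, A₁, B₁, G₁, Matrix.cons_val]; ring⟩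
  | 5, 0, _ => ⟨0, (-3), by norm_num, fun z => by
      simp only [det3, P₁, A₁, B₁, G₁, Matrix.cons_val]; ring⟩
  | 5, 1, _ => ⟨0, 3, by norm_num, fun z => by
      simp only [det3, P₁, A₁, B₁, G₁, Matrix.cons_val]; ring⟩
  | 5, 2, _ => ⟨5, (-3), by norm_num, fun z => by
      simp only [det3, P₁, A₁, B₁, G₁, Matrix.cons_val]; ring⟩
  | 5, 3, _ => ⟨8, 3, by norm_num, fun z => by
      simp only [det3, P₁, A₁, B₁, G₁, Matrix.cons_val]; ring⟩
  | 5, 4, _ => ⟨7, (-3), by norm_num, fun z => by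
      simp only [det3, P₁, A₁, B₁, G₁, Matrix.cons_val]; ring⟩
  | 5, 5, h => absurd rfl h

theorem tree₁ (x y : ℝ) (hx : 0 < x) (hy : 0 < y) (hxy : 0 < 6 - x - y)
    (h3 : (-1) * x + 1 * y + 0 ≠ 0) (h4 : (-1) * x + (-2) * y + 6 ≠ 0) (h5 : 2 * x + 1 * y + (-6) ≠ 0) (h6 : 0 * x + (-1) * y + 3 ≠ 0) (h7 : 1 * x + 1 * y + (-3) ≠ 0) (h8 : (-1) * x + 0 * y + 3 ≠ 0) :
    ∃ c : Fin 12, ∀ l, 0 < sg (b₁ c l) * (A₁ l * x + B₁ l * y + G₁ l) := by
  rcases lt_or_gt_of_ne h3 with h3 | h3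
  · rcases lt_or_gt_of_ne h4 with h4 | h4
    · rcases lt_or_gt_of_ne h5 with h5 | h5
      · exfalso; linarith
      · rcases lt_or_gt_of_ne h6 with h6 | h6
        · exfalso; linarith
        · rcases lt_or_gt_of_ne h7 with h7 | h7
          · exfalso; linarith
          · rcases lt_or_gt_of_ne h8 with h8 | h8
            · exact ⟨11, all9 (by simp only [sg, b₁, A₁, B₁, G₁, Matrix.cons_val]; linarith) (by simp only [sg, b₁, A₁, B₁, G₁, Matrix.cons_val]; linarith) (by simp only [sg, b₁, A₁, B₁, G₁, Matrix.cons_val]; linarith) (by simp only [sg, b₁, A₁, B₁, G₁, Matrix.cons_val]; linarith) (by simp only [sg, b₁, A₁, B₁, G₁, Matrix.cons_val]; linarith) (by simp only [sg, b₁, A₁, B₁, G₁, Matrix.cons_val]; linarith) (by simp only [sg, b₁, A₁, B₁, G₁, Matrix.cons_val]; linarith) (by simp only [sg, b₁, A₁, B₁, G₁, Matrix.cons_val]; linarith) (by simp only [sg, b₁, A₁, B₁, G₁, Matrix.cons_val]; linarith)⟩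
            · exact ⟨9, all9 (by simp only [sg, b₁, A₁, B₁, G₁, Matrix.cons_val]; linarith) (by simp only [sg, b₁, A₁, B₁, G₁, Matrix.cons_val]; linarith) (by simp only [sg, b₁, A₁, B₁, G₁, Matrix.cons_val]; linarith) (by simp only [sg, b₁, A₁, B₁, G₁, Matrix.cons_val]; linarith) (by simp only [sg, b₁, A₁, B₁, G₁, Matrix.cons_val]; linarith) (by simp only [sg, b₁, A₁, B₁, G₁, Matrix.cons_val]; linarith) (by simp only [sg, b₁, A₁, B₁, G₁, Matrix.cons_val]; linarith) (by simp only [sg, b₁, A₁, B₁, G₁, Matrix.cons_val]; linarith) (by simp only [sg, b₁, A₁, B₁, G₁, Matrix.cons_val]; linarith)⟩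
    · rcases lt_or_gt_of_ne h5 with h5 | h5
      · rcases lt_or_gt_of_ne h6 with h6 | h6
        · exfalso; linarith
        · rcases lt_or_gt_of_ne h7 with h7 | h7
          · rcases lt_or_gt_of_ne h8 with h8 | h8
            · exfalso; linarith
            · exact ⟨2, all9 (by simp only [sg, b₁, A₁, B₁, G₁, Matrix.cons_val]; linarith) (by simp only [sg, b₁, A₁, B₁, G₁, Matrix.cons_val]; linarith) (by simp only [sg, b₁, A₁, B₁, G₁, Matrix.cons_val]; linarith) (by simp only [sg, b₁, A₁, B₁, G₁, Matrix.cons_val]; linarith) (by simp only [sg, b₁, A₁, B₁, G₁, Matrix.cons_val]; linarith) (by simp only [sg, b₁, A₁, B₁, G₁, Matrix.cons_val]; linarith) (by simp only [sg, b₁, A₁, B₁, G₁, Matrix.cons_val]; linarith) (by simp only [sg, b₁, A₁, B₁, G₁, Matrix.cons_val]; linarith) (by simp only [sg, b₁, A₁, B₁, G₁, Matrix.cons_val]; linarith)⟩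
          · rcases lt_or_gt_of_ne h8 with h8 | h8
            · exfalso; linarith
            · exact ⟨6, all9 (by simp only [sg, b₁, A₁, B₁, G₁, Matrix.cons_val]; linarith) (by simp only [sg, b₁, A₁, B₁, G₁, Matrix.cons_val]; linarith) (by simp only [sg, b₁, A₁, B₁, G₁, Matrix.cons_val]; linarith) (by simp only [sg, b₁, A₁, B₁, G₁, Matrix.cons_val]; linarith) (by simp only [sg, b₁, A₁, B₁, G₁, Matrix.cons_val]; linarith) (by simp only [sg, b₁, A₁, B₁, G₁, Matrix.cons_val]; linarith) (by simp only [sg, b₁, A₁, B₁, G₁, Matrix.cons_val]; linarith) (by simp only [sg, b₁, A₁, B₁, G₁, Matrix.cons_val]; linarith) (by simp only [sg, b₁, A₁, B₁, G₁, Matrix.cons_val]; linarith)⟩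
      · rcases lt_or_gt_of_ne h6 with h6 | h6
        · exfalso; linarith
        · rcases lt_or_gt_of_ne h7 with h7 | h7
          · exfalso; linarith
          · rcases lt_or_gt_of_ne h8 with h8 | h8
            · exact ⟨10, all9 (by simp only [sg, b₁, A₁, B₁, G₁, Matrix.cons_val]; linarith) (by simp only [sg, b₁, A₁, B₁, G₁, Matrix.cons_val]; linarith) (by simp only [sg, b₁, A₁, B₁, G₁, Matrix.cons_val]; linarith) (by simp only [sg, b₁, A₁, B₁, G₁, Matrix.cons_val]; linarith) (by simp only [sg, b₁, A₁, B₁, G₁, Matrix.cons_val]; linarith) (by simp only [sg, b₁, A₁, B₁, G₁, Matrix.cons_val]; linarith) (by simp only [sg, b₁, A₁, B₁, G₁, Matrix.cons_val]; linarith) (by simp only [sg, b₁, A₁, B₁, G₁, Matrix.cons_val]; linarith) (by simp only [sg, b₁, A₁, B₁, G₁, Matrix.cons_val]; linarith)⟩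
            · exact ⟨8, all9 (by simp only [sg, b₁, A₁, B₁, G₁, Matrix.cons_val]; linarith) (by simp only [sg, b₁, A₁, B₁, G₁, Matrix.cons_val]; linarith) (by simp only [sg, b₁, A₁, B₁, G₁, Matrix.cons_val]; linarith) (by simp only [sg, b₁, A₁, B₁, G₁, Matrix.cons_val]; linarith) (by simp only [sg, b₁, A₁, B₁, G₁, Matrix.cons_val]; linarith) (by simp only [sg, b₁, A₁, B₁, G₁, Matrix.cons_val]; linarith) (by simp only [sg, b₁, A₁, B₁, G₁, Matrix.cons_val]; linarith) (by simp only [sg, b₁, A₁, B₁, G₁, Matrix.cons_val]; linarith) (by simp only [sg, b₁, A₁, B₁, G₁, Matrix.cons_val]; linarith)⟩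
  · rcases lt_or_gt_of_ne h4 with h4 | h4
    · rcases lt_or_gt_of_ne h5 with h5 | h5
      · rcases lt_or_gt_of_ne h6 with h6 | h6
        · rcases lt_or_gt_of_ne h7 with h7 | h7
          · exfalso; linarith
          · rcases lt_or_gt_of_ne h8 with h8 | h8
            · exfalso; linarith
            · exact ⟨1, all9 (by simp only [sg, b₁, A₁, B₁, G₁, Matrix.cons_val]; linarith) (by simp only [sg, b₁, A₁, B₁, G₁, Matrix.cons_val]; linarith) (by simp only [sg, b₁, A₁, B₁, G₁, Matrix.cons_val]; linarith) (by simp only [sg, b₁, A₁, B₁, G₁, Matrix.cons_val]; linarith) (by simp only [sg, b₁, A₁, B₁, G₁, Matrix.cons_val]; linarith) (by simp only [sg, b₁, A₁, B₁, G₁, Matrix.cons_val]; linarith) (by simp only [sg, b₁, A₁, B₁, G₁, Matrix.cons_val]; linarith) (by simp only [sg, b₁, A₁, B₁, G₁, Matrix.cons_val]; linarith) (by simp only [sg, b₁, A₁, B₁, G₁, Matrix.cons_val]; linarith)⟩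
        · rcases lt_or_gt_of_ne h7 with h7 | h7
          · exfalso; linarith
          · rcases lt_or_gt_of_ne h8 with h8 | h8
            · exfalso; linarith
            · exact ⟨5, all9 (by simp only [sg, b₁, A₁, B₁, G₁, Matrix.cons_val]; linarith) (by simp only [sg, b₁, A₁, B₁, G₁, Matrix.cons_val]; linarith) (by simp only [sg, b₁, A₁, B₁, G₁, Matrix.cons_val]; linarith) (by simp only [sg, b₁, A₁, B₁, G₁, Matrix.cons_val]; linarith) (by simp only [sg, b₁, A₁, B₁, G₁, Matrix.cons_val]; linarith) (by simp only [sg, b₁, A₁, B₁, G₁, Matrix.cons_val]; linarith) (by simp only [sg, b₁, A₁, B₁, G₁, Matrix.cons_val]; linarith) (by simp only [sg, b₁, A₁, B₁, G₁, Matrix.cons_val]; linarith) (by simp only [sg, b₁, A₁, B₁, G₁, Matrix.cons_val]; linarith)⟩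
      · rcases lt_or_gt_of_ne h6 with h6 | h6
        · rcases lt_or_gt_of_ne h7 with h7 | h7
          · exfalso; linarith
          · rcases lt_or_gt_of_ne h8 with h8 | h8
            · exfalso; linarith
            · exact ⟨3, all9 (by simp only [sg, b₁, A₁, B₁, G₁, Matrix.cons_val]; linarith) (by simp only [sg, b₁, A₁, B₁, G₁, Matrix.cons_val]; linarith) (by simp only [sg, b₁, A₁, B₁, G₁, Matrix.cons_val]; linarith) (by simp only [sg, b₁, A₁, B₁, G₁, Matrix.cons_val]; linarith) (by simp only [sg, b₁, A₁, B₁, G₁, Matrix.cons_val]; linarith) (by simp only [sg, b₁, A₁, B₁, G₁, Matrix.cons_val]; linarith) (by simp only [sg, b₁, A₁, B₁, G₁, Matrix.cons_val]; linarith) (by simp only [sg, b₁, A₁, B₁, G₁, Matrix.cons_val]; linarith) (by simp only [sg, b₁, A₁, B₁, G₁, Matrix.cons_val]; linarith)⟩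
        · rcases lt_or_gt_of_ne h7 with h7 | h7
          · exfalso; linarith
          · rcases lt_or_gt_of_ne h8 with h8 | h8
            · exfalso; linarith
            · exact ⟨7, all9 (by simp only [sg, b₁, A₁, B₁, G₁, Matrix.cons_val]; linarith) (by simp only [sg, b₁, A₁, B₁, G₁, Matrix.cons_val]; linarith) (by simp only [sg, b₁, A₁, B₁, G₁, Matrix.cons_val]; linarith) (by simp only [sg, b₁, A₁, B₁, G₁, Matrix.cons_val]; linarith) (by simp only [sg, b₁, A₁, B₁, G₁, Matrix.cons_val]; linarith) (by simp only [sg, b₁, A₁, B₁, G₁, Matrix.cons_val]; linarith) (by simp only [sg, b₁, A₁, B₁, G₁, Matrix.cons_val]; linarith) (by simp only [sg, b₁, A₁, B₁, G₁, Matrix.cons_val]; linarith) (by simp only [sg, b₁, A₁, B₁, G₁, Matrix.cons_val]; linarith)⟩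
    · rcases lt_or_gt_of_ne h5 with h5 | h5
      · rcases lt_or_gt_of_ne h6 with h6 | h6
        · exfalso; linarith
        · rcases lt_or_gt_of_ne h7 with h7 | h7
          · rcases lt_or_gt_of_ne h8 with h8 | h8
            · exfalso; linarith
            · exact ⟨0, all9 (by simp only [sg, b₁, A₁, B₁, G₁, Matrix.cons_val]; linarith) (by simp only [sg, b₁, A₁, B₁, G₁, Matrix.cons_val]; linarith) (by simp only [sg, b₁, A₁, B₁, G₁, Matrix.cons_val]; linarith) (by simp only [sg, b₁, A₁, B₁, G₁, Matrix.cons_val]; linarith) (by simp only [sg, b₁, A₁, B₁, G₁, Matrix.cons_val]; linarith) (by simp only [sg, b₁, A₁, B₁, G₁, Matrix.cons_val]; linarith) (by simp only [sg, b₁, A₁, B₁, G₁, Matrix.cons_val]; linarith) (by simp only [sg, b₁, A₁, B₁, G₁, Matrix.cons_val]; linarith) (by simp only [sg, b₁, A₁, B₁, G₁, Matrix.cons_val]; linarith)⟩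
          · rcases lt_or_gt_of_ne h8 with h8 | h8
            · exfalso; linarith
            · exact ⟨4, all9 (by simp only [sg, b₁, A₁, B₁, G₁, Matrix.cons_val]; linarith) (by simp only [sg, b₁, A₁, B₁, G₁, Matrix.cons_val]; linarith) (by simp only [sg, b₁, A₁, B₁, G₁, Matrix.cons_val]; linarith) (by simp only [sg, b₁, A₁, B₁, G₁, Matrix.cons_val]; linarith) (by simp only [sg, b₁, A₁, B₁, G₁, Matrix.cons_val]; linarith) (by simp only [sg, b₁, A₁, B₁, G₁, Matrix.cons_val]; linarith) (by simp only [sg, b₁, A₁, B₁, G₁, Matrix.cons_val]; linarith) (by simp only [sg, b₁, A₁, B₁, G₁, Matrix.cons_val]; linarith) (by simp only [sg, b₁, A₁, B₁, G₁, Matrix.cons_val]; linarith)⟩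
      · exfalso; linarith

theorem hull₁ {z : ℂ} (hz : z ∈ convexHull ℝ (range P₁)) : 0 ≤ z.re ∧ 0 ≤ z.im ∧
    0 ≤ 6 - z.re - z.im := by
  have h1 : convexHull ℝ (range P₁) ⊆ {z | 0 ≤ det3 (P₁ 0) (P₁ 1) z} ∩
      ({z | 0 ≤ det3 (P₁ 1) (P₁ 2) z} ∩ {z | 0 ≤ det3 (P₁ 2) (P₁ 0) z}) := by
    refine convexHull_min ?_ ((convex_half _ _).inter ((convex_half _ _).inter (convex_half _ _)))
    rintro _ ⟨i, rfl⟩
    refine ⟨?_, ?_, ?_⟩ <;> rw [Set.mem_ofPred_eq] <;> fin_cases i <;>
      simp only [det3, P₁, Fin.reduceFinMk, Matrix.cons_val] <;> norm_num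
  obtain ⟨h2, h3, h4⟩ := h1 hz
  simp only [Set.mem_ofPred_eq, det3, P₁, Matrix.cons_val] at h2 h3 h4
  refine ⟨?_, ?_, ?_⟩ <;> linarith

/-- The chambers of `P₁`. -/
noncomputable def C₁ : Config P₁ 12 where
  A := A₁
  B := B₁
  G := G₁
  ne := all9 (by simp only [A₁, B₁, Matrix.cons_val]; norm_num) (by simp only [A₁, B₁, Matrix.cons_val]; norm_num) (by simp only [A₁, B₁, Matrix.cons_val]; norm_num) (by simp only [A₁, B₁, Matrix.cons_val]; norm_num) (by simp only [A₁, B₁, Matrix.cons_val]; norm_num) (by simp only [A₁, B₁, Matrix.cons_val]; norm_num) (by simp only [A₁, B₁, Matrix.cons_val]; norm_num) (by simp only [A₁, B₁, Matrix.cons_val]; norm_num) (by simp only [A₁, B₁, Matrix.cons_val]; norm_num)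
  line := line₁
  W := W₁
  b := b₁
  posW := by
    intro c
    refine all9 ?_ ?_ ?_ ?_ ?_ ?_ ?_ ?_ ?_ <;> fin_cases c <;>
      simp only [sg, b₁, A₁, B₁, G₁, W₁, Fin.reduceFinMk, Matrix.cons_val] <;> norm_num
  binj := by unfold b₁; decide
  enum := by
    intro z hz h
    obtain ⟨h1, h2, h3⟩ := hull₁ hz
    have k0 := h 0
    have k1 := h 1
    have k2 := h 2
    have k3 := h 3
    have k4 := h 4
    have k5 := h 5
    have k6 := h 6
    have k7 := h 7
    have k8 := h 8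
    simp only [A₁, B₁, G₁, Matrix.cons_val] at k0 k1 k2 k3 k4 k5 k6 k7 k8
    refine tree₁ z.re z.im ?_ ?_ ?_ k3 k4 k5 k6 k7 k8
    · refine lt_of_le_of_ne h1 fun h0 => k2 ?_
      rw [← h0]; ring
    · refine lt_of_le_of_ne h2 fun h0 => k0 ?_
      rw [← h0]; ring
    · refine lt_of_le_of_ne h3 fun h0 => k1 ?_
      linarith
  big := by
    intro c
    rw [hull3_iff (by simp only [det3, P₁, Matrix.cons_val]; norm_num)]
    refine ⟨?_, ?_, ?_⟩ <;> fin_cases c <;>
      simp only [det3, P₁, W₁, Fin.reduceFinMk, Matrix.cons_val] <;> norm_num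

/-- The points of the configuration `₂`. -/
def P₂ : Fin 6 → ℂ := ![⟨0, 0⟩, ⟨6, 0⟩, ⟨0, 6⟩, ⟨3, 3⟩, ⟨0, 3⟩, ⟨4, 0⟩]

def A₂ : Fin 9 → ℝ := ![0, (-1), 1, (-1), (-1), 3, 0, 3, (-3)]

def B₂ : Fin 9 → ℝ := ![1, (-1), 0, 1, (-2), 2, (-1), 4, (-1)]

def G₂ : Fin 9 → ℝ := ![0, 6, 0, 0, 6, (-12), 3, (-12), 12]

noncomputable def W₂ : Fin 13 → ℂ := ![⟨1, 2⟩, ⟨1, 4⟩, ⟨(3/2), 2⟩, ⟨(3/2), (5/2)⟩, ⟨(3/2), 4⟩, ⟨2, 1⟩, ⟨(7/3), (8/3)⟩, ⟨(5/2), 2⟩, ⟨3, 1⟩, ⟨3, 2⟩, ⟨(7/2), 1⟩, ⟨(7/2), 2⟩, ⟨4, (1/2)⟩]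

def b₂ : Fin 13 → Fin 9 → Bool := ![![true, true, true, true, true, false, true, false, true],
  ![true, true, true, true, false, false, false, true, true],
  ![true, true, true, true, true, false, true, true, true],
  ![true, true, true, true, false, false, true, true, true],
  ![true, true, true, true, false, true, false, true, true],
  ![true, true, true, false, true, false, true, false, true],
  ![true, true, true, true, false, true, true, true, true],
  ![true, true, true, false, false, false, true, true, true],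
  ![true, true, true, false, true, false, true, true, true],
  ![true, true, true, false, false, true, true, true, true],
  ![true, true, true, false, true, true, true, true, true],
  ![true, true, true, false, false, true, true, true, false],
  ![true, true, true, false, true, true, true, true, false]]

theorem line₂ : ∀ i j : Fin 6, i ≠ j → ∃ (l : Fin 9) (κ : ℝ), κ ≠ 0 ∧
    ∀ z : ℂ, det3 (P₂ i) (P₂ j) z = κ * (A₂ l * z.re + B₂ l * z.im + G₂ l)
  | 0, 0, h => absurd rfl h
  | 0, 1, _ => ⟨0, 6, by norm_num, fun z => by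
      simp only [det3, P₂, A₂, B₂, G₂, Matrix.cons_val]; ring⟩
  | 0, 2, _ => ⟨2, (-6), by norm_num, fun z => by
      simp only [det3, P₂, A₂, B₂, G₂, Matrix.cons_val]; ring⟩
  | 0, 3, _ => ⟨3, 3, by norm_num, fun z => by
      simp only [det3, P₂, A₂, B₂, G₂, Matrix.cons_val]; ring⟩
  | 0, 4, _ => ⟨2, (-3), by norm_num, fun z => by
      simp only [det3, P₂, A₂, B₂, G₂, Matrix.cons_val]; ring⟩
  | 0, 5, _ => ⟨0, 4, by norm_num, fun z => by
      simp only [det3, P₂, A₂, B₂, G₂, Matrix.cons_val]; ring⟩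
  | 1, 0, _ => ⟨0, (-6), by norm_num, fun z => by
      simp only [det3, P₂, A₂, B₂, G₂, Matrix.cons_val]; ring⟩
  | 1, 1, h => absurd rfl h
  | 1, 2, _ => ⟨1, 6, by norm_num, fun z => by
      simp only [det3, P₂, A₂, B₂, G₂, Matrix.cons_val]; ring⟩
  | 1, 3, _ => ⟨1, 3, by norm_num, fun z => by
      simp only [det3, P₂, A₂, B₂, G₂, Matrix.cons_val]; ring⟩
  | 1, 4, _ => ⟨4, 3, by norm_num, fun z => by
      simp only [det3, P₂, A₂, B₂, G₂, Matrix.cons_val]; ring⟩
  | 1, 5, _ => ⟨0, (-2), by norm_num, fun z => by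
      simp only [det3, P₂, A₂, B₂, G₂, Matrix.cons_val]; ring⟩
  | 2, 0, _ => ⟨2, 6, by norm_num, fun z => by
      simp only [det3, P₂, A₂, B₂, G₂, Matrix.cons_val]; ring⟩
  | 2, 1, _ => ⟨1, (-6), by norm_num, fun z => by
      simp only [det3, P₂, A₂, B₂, G₂, Matrix.cons_val]; ring⟩
  | 2, 2, h => absurd rfl h
  | 2, 3, _ => ⟨1, (-3), by norm_num, fun z => by
      simp only [det3, P₂, A₂, B₂, G₂, Matrix.cons_val]; ring⟩
  | 2, 4, _ => ⟨2, 3, by norm_num, fun z => by
      simp only [det3, P₂, A₂, B₂, G₂, Matrix.cons_val]; ring⟩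
  | 2, 5, _ => ⟨5, 2, by norm_num, fun z => by
      simp only [det3, P₂, A₂, B₂, G₂, Matrix.cons_val]; ring⟩
  | 3, 0, _ => ⟨3, (-3), by norm_num, fun z => by
      simp only [det3, P₂, A₂, B₂, G₂, Matrix.cons_val]; ring⟩
  | 3, 1, _ => ⟨1, (-3), by norm_num, fun z => by
      simp only [det3, P₂, A₂, B₂, G₂, Matrix.cons_val]; ring⟩
  | 3, 2, _ => ⟨1, 3, by norm_num, fun z => by
      simp only [det3, P₂, A₂, B₂, G₂, Matrix.cons_val]; ring⟩
  | 3, 3, h => absurd rfl h
  | 3, 4, _ => ⟨6, 3, by norm_num, fun z => by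
      simp only [det3, P₂, A₂, B₂, G₂, Matrix.cons_val]; ring⟩
  | 3, 5, _ => ⟨8, (-1), by norm_num, fun z => by
      simp only [det3, P₂, A₂, B₂, G₂, Matrix.cons_val]; ring⟩
  | 4, 0, _ => ⟨2, 3, by norm_num, fun z => by
      simp only [det3, P₂, A₂, B₂, G₂, Matrix.cons_val]; ring⟩
  | 4, 1, _ => ⟨4, (-3), by norm_num, fun z => by
      simp only [det3, P₂, A₂, B₂, G₂, Matrix.cons_val]; ring⟩
  | 4, 2, _ => ⟨2, (-3), by norm_num, fun z => by
      simp only [det3, P₂, A₂, B₂, G₂, Matrix.cons_val]; ring⟩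
  | 4, 3, _ => ⟨6, (-3), by norm_num, fun z => by
      simp only [det3, P₂, A₂, B₂, G₂, Matrix.cons_val]; ring⟩
  | 4, 4, h => absurd rfl h
  | 4, 5, _ => ⟨7, 1, by norm_num, fun z => by
      simp only [det3, P₂, A₂, B₂, G₂, Matrix.cons_val]; ring⟩
  | 5, 0, _ => ⟨0, (-4), by norm_num, fun z => by
      simp only [det3, P₂, A₂, B₂, G₂, Matrix.cons_val]; ring⟩
  | 5, 1, _ => ⟨0, 2, by norm_num, fun z => by
      simp only [det3, P₂, A₂, B₂, G₂, Matrix.cons_val]; ring⟩
  | 5, 2, _ => ⟨5, (-2), by norm_num, fun z => by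
      simp only [det3, P₂, A₂, B₂, G₂, Matrix.cons_val]; ring⟩
  | 5, 3, _ => ⟨8, 1, by norm_num, fun z => by
      simp only [det3, P₂, A₂, B₂, G₂, Matrix.cons_val]; ring⟩
  | 5, 4, _ => ⟨7, (-1), by norm_num, fun z => by
      simp only [det3, P₂, A₂, B₂, G₂, Matrix.cons_val]; ring⟩
  | 5, 5, h => absurd rfl h

theorem tree₂ (x y : ℝ) (hx : 0 < x) (hy : 0 < y) (hxy : 0 < 6 - x - y)
    (h3 : (-1) * x + 1 * y + 0 ≠ 0) (h4 : (-1) * x + (-2) * y + 6 ≠ 0) (h5 : 3 * x + 2 * y + (-12) ≠ 0) (h6 : 0 * x + (-1) * y + 3 ≠ 0) (h7 : 3 * x + 4 * y + (-12) ≠ 0) (h8 : (-3) * x + (-1) * y + 12 ≠ 0) :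
    ∃ c : Fin 13, ∀ l, 0 < sg (b₂ c l) * (A₂ l * x + B₂ l * y + G₂ l) := by
  rcases lt_or_gt_of_ne h3 with h3 | h3
  · rcases lt_or_gt_of_ne h4 with h4 | h4
    · rcases lt_or_gt_of_ne h5 with h5 | h5
      · rcases lt_or_gt_of_ne h6 with h6 | h6
        · exfalso; linarith
        · rcases lt_or_gt_of_ne h7 with h7 | h7
          · exfalso; linarith
          · rcases lt_or_gt_of_ne h8 with h8 | h8
            · exfalso; linarith
            · exact ⟨7, all9 (by simp only [sg, b₂, A₂, B₂, G₂, Matrix.cons_val]; linarith) (by simp only [sg, b₂, A₂, B₂, G₂, Matrix.cons_val]; linarith) (by simp only [sg, b₂, A₂, B₂, G₂, Matrix.cons_val]; linarith) (by simp only [sg, b₂, A₂, B₂, G₂, Matrix.cons_val]; linarith) (by simp only [sg, b₂, A₂, B₂, G₂, Matrix.cons_val]; linarith) (by simp only [sg, b₂, A₂, B₂, G₂, Matrix.cons_val]; linarith) (by simp only [sg, b₂, A₂, B₂, G₂, Matrix.cons_val]; linarith) (by simp only [sg, b₂, A₂, B₂, G₂, Matrix.cons_val];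 linarith) (by simp only [sg, b₂, A₂, B₂, G₂, Matrix.cons_val]; linarith)⟩
      · rcases lt_or_gt_of_ne h6 with h6 | h6
        · exfalso; linarith
        · rcases lt_or_gt_of_ne h7 with h7 | h7
          · exfalso; linarith
          · rcases lt_or_gt_of_ne h8 with h8 | h8
            · exact ⟨11, all9 (by simp only [sg, b₂, A₂, B₂, G₂, Matrix.cons_val]; linarith) (by simp only [sg, b₂, A₂, B₂, G₂, Matrix.cons_val]; linarith) (by simp only [sg, b₂, A₂, B₂, G₂, Matrix.cons_val]; linarith) (by simp only [sg, b₂, A₂, B₂, G₂, Matrix.cons_val]; linarith) (by simp only [sg, b₂, A₂, B₂, G₂, Matrix.cons_val]; linarith) (by simp only [sg, b₂, A₂, B₂, G₂, Matrix.cons_val]; linarith) (by simp only [sg, b₂, A₂, B₂, G₂, Matrix.cons_val]; linarith) (by simp only [sg, b₂, A₂, B₂, G₂, Matrix.cons_val]; linarith) (by simp only [sg, b₂, A₂, B₂, G₂, Matrix.cons_val]; linarith)⟩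
            · exact ⟨9, all9 (by simp only [sg, b₂, A₂, B₂, G₂, Matrix.cons_val]; linarith) (by simp only [sg, b₂, A₂, B₂, G₂, Matrix.cons_val]; linarith) (by simp only [sg, b₂, A₂, B₂, G₂, Matrix.cons_val]; linarith) (by simp only [sg, b₂, A₂, B₂, G₂, Matrix.cons_val]; linarith) (by simp only [sg, b₂, A₂, B₂, G₂, Matrix.cons_val]; linarith) (by simp only [sg, b₂, A₂, B₂, G₂, Matrix.cons_val]; linarith) (by simp only [sg, b₂, A₂, B₂, G₂, Matrix.cons_val]; linarith) (by simp only [sg, b₂, A₂, B₂, G₂, Matrix.cons_val]; linarith) (by simp only [sg, b₂, A₂, B₂, G₂, Matrix.cons_val]; linarith)⟩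
    · rcases lt_or_gt_of_ne h5 with h5 | h5
      · rcases lt_or_gt_of_ne h6 with h6 | h6
        · exfalso; linarith
        · rcases lt_or_gt_of_ne h7 with h7 | h7
          · rcases lt_or_gt_of_ne h8 with h8 | h8
            · exfalso; linarith
            · exact ⟨5, all9 (by simp only [sg, b₂, A₂, B₂, G₂, Matrix.cons_val]; linarith) (by simp only [sg, b₂, A₂, B₂, G₂, Matrix.cons_val]; linarith) (by simp only [sg, b₂, A₂, B₂, G₂, Matrix.cons_val]; linarith) (by simp only [sg, b₂, A₂, B₂, G₂, Matrix.cons_val]; linarith) (by simp only [sg, b₂, A₂, B₂, G₂, Matrix.cons_val]; linarith) (by simp only [sg, b₂, A₂, B₂, G₂, Matrix.cons_val]; linarith) (by simp only [sg, b₂, A₂, B₂, G₂, Matrix.cons_val]; linarith) (by simp only [sg, b₂, A₂, B₂, G₂, Matrix.cons_val]; linarith) (by simp only [sg, b₂, A₂, B₂, G₂, Matrix.cons_val]; linarith)⟩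
          · rcases lt_or_gt_of_ne h8 with h8 | h8
            · exfalso; linarith
            · exact ⟨8, all9 (by simp only [sg, b₂, A₂, B₂, G₂, Matrix.cons_val]; linarith) (by simp only [sg, b₂, A₂, B₂, G₂, Matrix.cons_val]; linarith) (by simp only [sg, b₂, A₂, B₂, G₂, Matrix.cons_val]; linarith) (by simp only [sg, b₂, A₂, B₂, G₂, Matrix.cons_val]; linarith) (by simp only [sg, b₂, A₂, B₂, G₂, Matrix.cons_val]; linarith) (by simp only [sg, b₂, A₂, B₂, G₂, Matrix.cons_val]; linarith) (by simp only [sg, b₂, A₂, B₂, G₂, Matrix.cons_val]; linarith) (by simp only [sg, b₂, A₂, B₂, G₂, Matrix.cons_val]; linarith) (by simp only [sg, b₂, A₂, B₂, G₂, Matrix.cons_val]; linarith)⟩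
      · rcases lt_or_gt_of_ne h6 with h6 | h6
        · exfalso; linarith
        · rcases lt_or_gt_of_ne h7 with h7 | h7
          · exfalso; linarith
          · rcases lt_or_gt_of_ne h8 with h8 | h8
            · exact ⟨12, all9 (by simp only [sg, b₂, A₂, B₂, G₂, Matrix.cons_val]; linarith) (by simp only [sg, b₂, A₂, B₂, G₂, Matrix.cons_val]; linarith) (by simp only [sg, b₂, A₂, B₂, G₂, Matrix.cons_val]; linarith) (by simp only [sg, b₂, A₂, B₂, G₂, Matrix.cons_val]; linarith) (by simp only [sg, b₂, A₂, B₂, G₂, Matrix.cons_val]; linarith) (by simp only [sg, b₂, A₂, B₂, G₂, Matrix.cons_val]; linarith) (by simp only [sg, b₂, A₂, B₂, G₂, Matrix.cons_val]; linarith) (by simp only [sg, b₂, A₂, B₂, G₂, Matrix.cons_val]; linarith) (by simp only [sg, b₂, A₂, B₂, G₂, Matrix.cons_val]; linarith)⟩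
            · exact ⟨10, all9 (by simp only [sg, b₂, A₂, B₂, G₂, Matrix.cons_val]; linarith) (by simp only [sg, b₂, A₂, B₂, G₂, Matrix.cons_val]; linarith) (by simp only [sg, b₂, A₂, B₂, G₂, Matrix.cons_val]; linarith) (by simp only [sg, b₂, A₂, B₂, G₂, Matrix.cons_val]; linarith) (by simp only [sg, b₂, A₂, B₂, G₂, Matrix.cons_val]; linarith) (by simp only [sg, b₂, A₂, B₂, G₂, Matrix.cons_val]; linarith) (by simp only [sg, b₂, A₂, B₂, G₂, Matrix.cons_val]; linarith) (by simp only [sg, b₂, A₂, B₂, G₂, Matrix.cons_val]; linarith) (by simp only [sg, b₂, A₂, B₂, G₂, Matrix.cons_val]; linarith)⟩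
  · rcases lt_or_gt_of_ne h4 with h4 | h4
    · rcases lt_or_gt_of_ne h5 with h5 | h5
      · rcases lt_or_gt_of_ne h6 with h6 | h6
        · rcases lt_or_gt_of_ne h7 with h7 | h7
          · exfalso; linarith
          · rcases lt_or_gt_of_ne h8 with h8 | h8
            · exfalso; linarith
            · exact ⟨1, all9 (by simp only [sg, b₂, A₂, B₂, G₂, Matrix.cons_val]; linarith) (by simp only [sg, b₂, A₂, B₂, G₂, Matrix.cons_val]; linarith) (by simp only [sg, b₂, A₂, B₂, G₂, Matrix.cons_val]; linarith) (by simp only [sg, b₂, A₂, B₂, G₂, Matrix.cons_val]; linarith) (by simp only [sg, b₂, A₂, B₂, G₂, Matrix.cons_val]; linarith) (by simp only [sg, b₂, A₂, B₂, G₂, Matrix.cons_val]; linarith) (by simp only [sg, b₂, A₂, B₂, G₂, Matrix.cons_val]; linarith) (by simp only [sg, b₂, A₂, B₂, G₂, Matrix.cons_val]; linarith) (by simp only [sg, b₂, A₂, B₂, G₂, Matrix.cons_val]; linarith)⟩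
        · rcases lt_or_gt_of_ne h7 with h7 | h7
          · exfalso; linarith
          · rcases lt_or_gt_of_ne h8 with h8 | h8
            · exfalso; linarith
            · exact ⟨3, all9 (by simp only [sg, b₂, A₂, B₂, G₂, Matrix.cons_val]; linarith) (by simp only [sg, b₂, A₂, B₂, G₂, Matrix.cons_val]; linarith) (by simp only [sg, b₂, A₂, B₂, G₂, Matrix.cons_val]; linarith) (by simp only [sg, b₂, A₂, B₂, G₂, Matrix.cons_val]; linarith) (by simp only [sg, b₂, A₂, B₂, G₂, Matrix.cons_val]; linarith) (by simp only [sg, b₂, A₂, B₂, G₂, Matrix.cons_val]; linarith) (by simp only [sg, b₂, A₂, B₂, G₂, Matrix.cons_val]; linarith) (by simp only [sg, b₂, A₂, B₂, G₂, Matrix.cons_val]; linarith) (by simp only [sg, b₂, A₂, B₂, G₂, Matrix.cons_val]; linarith)⟩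
      · rcases lt_or_gt_of_ne h6 with h6 | h6
        · rcases lt_or_gt_of_ne h7 with h7 | h7
          · exfalso; linarith
          · rcases lt_or_gt_of_ne h8 with h8 | h8
            · exfalso; linarith
            · exact ⟨4, all9 (by simp only [sg, b₂, A₂, B₂, G₂, Matrix.cons_val]; linarith) (by simp only [sg, b₂, A₂, B₂, G₂, Matrix.cons_val]; linarith) (by simp only [sg, b₂, A₂, B₂, G₂, Matrix.cons_val]; linarith) (by simp only [sg, b₂, A₂, B₂, G₂, Matrix.cons_val]; linarith) (by simp only [sg, b₂, A₂, B₂, G₂, Matrix.cons_val]; linarith) (by simp only [sg, b₂, A₂, B₂, G₂, Matrix.cons_val]; linarith) (by simp only [sg, b₂, A₂, B₂, G₂, Matrix.cons_val]; linarith) (by simp only [sg, b₂, A₂, B₂, G₂, Matrix.cons_val]; linarith) (by simp only [sg, b₂, A₂, B₂, G₂, Matrix.cons_val]; linarith)⟩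
        · rcases lt_or_gt_of_ne h7 with h7 | h7
          · exfalso; linarith
          · rcases lt_or_gt_of_ne h8 with h8 | h8
            · exfalso; linarith
            · exact ⟨6, all9 (by simp only [sg, b₂, A₂, B₂, G₂, Matrix.cons_val]; linarith) (by simp only [sg, b₂, A₂, B₂, G₂, Matrix.cons_val]; linarith) (by simp only [sg, b₂, A₂, B₂, G₂, Matrix.cons_val]; linarith) (by simp only [sg, b₂, A₂, B₂, G₂, Matrix.cons_val]; linarith) (by simp only [sg, b₂, A₂, B₂, G₂, Matrix.cons_val]; linarith) (by simp only [sg, b₂, A₂, B₂, G₂, Matrix.cons_val]; linarith) (by simp only [sg, b₂, A₂, B₂, G₂, Matrix.cons_val]; linarith) (by simp only [sg, b₂, A₂, B₂, G₂, Matrix.cons_val]; linarith) (by simp only [sg, b₂, A₂, B₂, G₂, Matrix.cons_val]; linarith)⟩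
    · rcases lt_or_gt_of_ne h5 with h5 | h5
      · rcases lt_or_gt_of_ne h6 with h6 | h6
        · exfalso; linarith
        · rcases lt_or_gt_of_ne h7 with h7 | h7
          · rcases lt_or_gt_of_ne h8 with h8 | h8
            · exfalso; linarith
            · exact ⟨0, all9 (by simp only [sg, b₂, A₂, B₂, G₂, Matrix.cons_val]; linarith) (by simp only [sg, b₂, A₂, B₂, G₂, Matrix.cons_val]; linarith) (by simp only [sg, b₂, A₂, B₂, G₂, Matrix.cons_val]; linarith) (by simp only [sg, b₂, A₂, B₂, G₂, Matrix.cons_val]; linarith) (by simp only [sg, b₂, A₂, B₂, G₂, Matrix.cons_val]; linarith) (by simp only [sg, b₂, A₂, B₂, G₂, Matrix.cons_val]; linarith) (by simp only [sg, b₂, A₂, B₂, G₂, Matrix.cons_val]; linarith) (by simp only [sg, b₂, A₂, B₂, G₂, Matrix.cons_val]; linarith) (by simp only [sg, b₂, A₂, B₂, G₂, Matrix.cons_val]; linarith)⟩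
          · rcases lt_or_gt_of_ne h8 with h8 | h8
            · exfalso; linarith
            · exact ⟨2, all9 (by simp only [sg, b₂, A₂, B₂, G₂, Matrix.cons_val]; linarith) (by simp only [sg, b₂, A₂, B₂, G₂, Matrix.cons_val]; linarith) (by simp only [sg, b₂, A₂, B₂, G₂, Matrix.cons_val]; linarith) (by simp only [sg, b₂, A₂, B₂, G₂, Matrix.cons_val]; linarith) (by simp only [sg, b₂, A₂, B₂, G₂, Matrix.cons_val]; linarith) (by simp only [sg, b₂, A₂, B₂, G₂, Matrix.cons_val]; linarith) (by simp only [sg, b₂, A₂, B₂, G₂, Matrix.cons_val]; linarith) (by simp only [sg, b₂, A₂, B₂, G₂, Matrix.cons_val]; linarith) (by simp only [sg, b₂, A₂, B₂, G₂, Matrix.cons_val]; linarith)⟩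
      · exfalso; linarith

theorem hull₂ {z : ℂ} (hz : z ∈ convexHull ℝ (range P₂)) : 0 ≤ z.re ∧ 0 ≤ z.im ∧
    0 ≤ 6 - z.re - z.im := by
  have h1 : convexHull ℝ (range P₂) ⊆ {z | 0 ≤ det3 (P₂ 0) (P₂ 1) z} ∩
      ({z | 0 ≤ det3 (P₂ 1) (P₂ 2) z} ∩ {z | 0 ≤ det3 (P₂ 2) (P₂ 0) z}) := by
    refine convexHull_min ?_ ((convex_half _ _).inter ((convex_half _ _).inter (convex_half _ _)))
    rintro _ ⟨i, rfl⟩
    refine ⟨?_, ?_, ?_⟩ <;> rw [Set.mem_ofPred_eq] <;> fin_cases i <;>
      simp only [det3, P₂, Fin.reduceFinMk, Matrix.cons_val] <;> norm_num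
  obtain ⟨h2, h3, h4⟩ := h1 hz
  simp only [Set.mem_ofPred_eq, det3, P₂, Matrix.cons_val] at h2 h3 h4
  refine ⟨?_, ?_, ?_⟩ <;> linarith

/-- The chambers of `P₂`. -/
noncomputable def C₂ : Config P₂ 13 where
  A := A₂
  B := B₂
  G := G₂
  ne := all9 (by simp only [A₂, B₂, Matrix.cons_val]; norm_num) (by simp only [A₂, B₂, Matrix.cons_val]; norm_num) (by simp only [A₂, B₂, Matrix.cons_val]; norm_num) (by simp only [A₂, B₂, Matrix.cons_val]; norm_num) (by simp only [A₂, B₂, Matrix.cons_val]; norm_num) (by simp only [A₂, B₂, Matrix.cons_val]; norm_num) (by simp only [A₂, B₂, Matrix.cons_val]; norm_num) (by simp only [A₂, B₂, Matrix.cons_val]; norm_num) (by simp only [A₂, B₂, Matrix.cons_val]; norm_num)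
  line := line₂
  W := W₂
  b := b₂
  posW := by
    intro c
    refine all9 ?_ ?_ ?_ ?_ ?_ ?_ ?_ ?_ ?_ <;> fin_cases c <;>
      simp only [sg, b₂, A₂, B₂, G₂, W₂, Fin.reduceFinMk, Matrix.cons_val] <;> norm_num
  binj := by unfold b₂; decide
  enum := by
    intro z hz h
    obtain ⟨h1, h2, h3⟩ := hull₂ hz
    have k0 := h 0
    have k1 := h 1
    have k2 := h 2
    have k3 := h 3
    have k4 := h 4
    have k5 := h 5
    have k6 := h 6
    have k7 := h 7
    have k8 := h 8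
    simp only [A₂, B₂, G₂, Matrix.cons_val] at k0 k1 k2 k3 k4 k5 k6 k7 k8
    refine tree₂ z.re z.im ?_ ?_ ?_ k3 k4 k5 k6 k7 k8
    · refine lt_of_le_of_ne h1 fun h0 => k2 ?_
      rw [← h0]; ring
    · refine lt_of_le_of_ne h2 fun h0 => k0 ?_
      rw [← h0]; ring
    · refine lt_of_le_of_ne h3 fun h0 => k1 ?_
      linarith
  big := by
    intro c
    rw [hull3_iff (by simp only [det3, P₂, Matrix.cons_val]; norm_num)]
    refine ⟨?_, ?_, ?_⟩ <;> fin_cases c <;>
      simp only [det3, P₂, W₂, Fin.reduceFinMk, Matrix.cons_val] <;> norm_num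


/-- The coefficients of the witnesses. -/
def Q : Fin 13 → Fin 7 → ℤ := ![![0, 1, 0, 1, 1, 0, 1],
  ![1, 1, 0, 1, 0, 1, 0],
  ![1, 2, 1, 1, 1, 0, (-1)],
  ![1, 2, (-1), 2, 1, 1, 0],
  ![1, 1, 0, 1, 1, (-1), 1],
  ![1, 0, 0, 1, 1, 0, 1],
  ![1, 2, 0, 1, 2, (-1), 0],
  ![2, 1, (-1), 2, 1, 1, 0],
  ![2, 1, 1, 1, 1, 1, (-1)],
  ![2, 1, (-1), 2, 2, (-1), 1],
  ![1, 1, 1, 1, 2, (-1), 0],
  ![1, 1, (-1), 1, 1, 0, 1],
  ![1, 1, 1, 0, 1, 0, 0]]

/-- incidences of chambers and triangles -/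
def Mt : Fin 7 → Fin 13 → Bool := ![![true, false, true, true, false, false, true, false, false, false, false, false, false],
  ![false, false, false, false, false, true, false, true, true, true, true, false, false],
  ![false, false, false, true, false, false, true, true, false, true, false, true, false],
  ![false, false, false, false, false, false, false, false, false, false, false, true, true],
  ![false, true, false, false, true, false, false, false, false, false, false, false, false],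
  ![false, false, false, false, true, false, true, false, false, true, true, false, false],
  ![false, false, true, true, false, false, true, true, true, true, true, false, false]]

def T1 : Fin 7 → Fin 6 := ![0, 0, 1, 1, 2, 2, 3]

def T2 : Fin 7 → Fin 6 := ![3, 5, 3, 3, 4, 5, 4]

def T3 : Fin 7 → Fin 6 := ![4, 3, 4, 5, 3, 3, 5]

theorem mt (t : Fin 7) (c : Fin 13) :
    W₂ c ∈ convexHull ℝ {P₂ (T1 t), P₂ (T2 t), P₂ (T3 t)} ↔ Mt t c = true := by
  have hD : 0 < det3 (P₂ (T1 t)) (P₂ (T2 t)) (P₂ (T3 t)) := by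
    fin_cases t <;> simp only [det3, P₂, T1, T2, T3, Fin.reduceFinMk, Matrix.cons_val] <;> norm_num
  rw [hull3_iff hD]
  fin_cases t <;> fin_cases c <;>
    simp only [det3, P₂, T1, T2, T3, W₂, Mt, Fin.reduceFinMk, Matrix.cons_val] <;> norm_num

def D (j c : Fin 13) : ℤ := ∑ t, Q j t * (if Mt t c = true then 1 else 0)

theorem D_self : ∀ j, D j j = 0 := by decide

theorem D_pos : ∀ j c, c ≠ j → 0 < D j c := by decide

/-- the witnesses -/
noncomputable def wit (j : Fin 13) : SignedMeasure ℂ :=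
  ∑ t, (Q j t : ℝ) • tri (P₂ (T1 t)) (P₂ (T2 t)) (P₂ (T3 t))

theorem ev_wit (j c : Fin 13) : C₂.ev c (wit j) = (D j c : ℝ) * C₂.v c := by
  classical
  unfold wit D
  rw [map_sum]
  push_cast
  rw [Finset.sum_mul]
  refine Finset.sum_congr rfl fun t _ => ?_
  rw [map_smul, C₂.ev_tri, smul_eq_mul, mul_assoc]
  have h : C₂.W c ∈ convexHull ℝ {P₂ (T1 t), P₂ (T2 t), P₂ (T3 t)} ↔ Mt t c = true := mt t c
  by_cases hm : Mt t c = true
  · rw [if_pos (h.2 hm), if_pos hm]
  · rw [if_neg fun h' => hm (h.1 h'), if_neg hm]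

theorem irred (j : Fin 13) : ∃ x ∈ Kpos (range P₂), C₂.poly.l j x = 0 ∧
    ∀ i, i ≠ j → 0 < C₂.poly.l i x := by
  have h0 : C₂.poly.l j (wit j) = 0 := by
    show C₂.ev j (wit j) = 0
    rw [ev_wit, D_self, Int.cast_zero, zero_mul]
  have h1 : ∀ i, i ≠ j → 0 < C₂.poly.l i (wit j) := by
    intro i hi
    show 0 < C₂.ev i (wit j)
    rw [ev_wit]
    exact mul_pos (by exact_mod_cast D_pos j i hi) (C₂.v_pos i)
  refine ⟨wit j, (C₂.poly.mem _).2 ⟨?_, fun i => ?_⟩, h0, h1⟩
  · exact Submodule.sum_mem _ fun t _ => Submodule.smul_mem _ _ (Config.tri_mem _ _ _)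
  · rcases eq_or_ne i j with rfl | hi
    · exact h0.ge
    · exact (h1 i hi).le

/-- The chirotope. -/
noncomputable def chi (a b c : ℂ) : SignType :=
  SignType.sign (Matrix.det !![1, 1, 1; a.re, b.re, c.re; a.im, b.im, c.im])

/-- `S` contains three non-collinear points. -/
def Spanning (S : Set ℂ) : Prop := ∃ a ∈ S, ∃ b ∈ S, ∃ c ∈ S, ¬ Collinear ℝ {a, b, c}

/-- `S` and `S'` have the same oriented matroid. -/
def SameOrientedMatroid (S S' : Set ℂ) : Prop :=
  ∃ φ : S ≃ S', ∀ a b c : S, chi (φ a) (φ b) (φ c) = chi a b c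

theorem chi_eq (a b c : ℂ) : chi a b c = SignType.sign (det3 a b c) := by
  unfold chi det3
  congr 1
  rw [Matrix.det_fin_three]
  simp
  ring

def X₁ : Fin 6 → ℤ := ![0, 6, 0, 3, 0, 3]

def Y₁ : Fin 6 → ℤ := ![0, 0, 6, 3, 3, 0]

theorem coords₁ : ∀ i, P₁ i = ⟨((X₁ i : ℤ) : ℝ), ((Y₁ i : ℤ) : ℝ)⟩
  | 0 => by simp [P₁, X₁, Y₁]
  | 1 => by simp [P₁, X₁, Y₁]
  | 2 => by simp [P₁, X₁, Y₁]
  | 3 => by simp [P₁, X₁, Y₁]
  | 4 => by simp [P₁, X₁, Y₁]
  | 5 => by simp [P₁, X₁, Y₁]

theorem chi₁ (i j k : Fin 6) : chi (P₁ i) (P₁ j) (P₁ k) = SignType.sign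
    ((X₁ j - X₁ i) * (Y₁ k - Y₁ i) - (Y₁ j - Y₁ i) * (X₁ k - X₁ i)) := by
  rw [chi_eq, coords₁ i, coords₁ j, coords₁ k]
  unfold det3
  simp only
  rw [← _root_.sign_intCast (α := ℝ)]
  push_cast
  rfl

theorem inj₁ : Function.Injective P₁ := by
  have h : ∀ i j, X₁ i = X₁ j → Y₁ i = Y₁ j → i = j := by decide
  intro i j hij
  rw [coords₁ i, coords₁ j, Complex.mk.injEq] at hij
  exact h i j (by exact_mod_cast hij.1) (by exact_mod_cast hij.2)

theorem spanning₁ : Spanning (range P₁) := by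
  refine ⟨P₁ 0, ⟨0, rfl⟩, P₁ 1, ⟨1, rfl⟩, P₁ 2, ⟨2, rfl⟩, fun h => ?_⟩
  rw [collinear_iff_of_mem (show P₁ 0 ∈ ({P₁ 0, P₁ 1, P₁ 2} : Set ℂ) by simp)] at h
  obtain ⟨v, hv⟩ := h
  obtain ⟨r, hr⟩ := hv (P₁ 1) (by simp)
  obtain ⟨s, hs⟩ := hv (P₁ 2) (by simp)
  simp only [P₁, Matrix.cons_val] at hr hs
  have h1 := congrArg Complex.re hr
  have h2 := congrArg Complex.im hr
  have h3 := congrArg Complex.re hs
  have h4 := congrArg Complex.im hs
  simp at h1 h2 h3 h4
  rcases h2 with h2 | h2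
  · rw [h2] at h1
    norm_num at h1
  · rw [h2] at h4
    norm_num at h4

def X₂ : Fin 6 → ℤ := ![0, 6, 0, 3, 0, 4]

def Y₂ : Fin 6 → ℤ := ![0, 0, 6, 3, 3, 0]

theorem coords₂ : ∀ i, P₂ i = ⟨((X₂ i : ℤ) : ℝ), ((Y₂ i : ℤ) : ℝ)⟩
  | 0 => by simp [P₂, X₂, Y₂]
  | 1 => by simp [P₂, X₂, Y₂]
  | 2 => by simp [P₂, X₂, Y₂]
  | 3 => by simp [P₂, X₂, Y₂]
  | 4 => by simp [P₂, X₂, Y₂]
  | 5 => by simp [P₂, X₂, Y₂]

theorem chi₂ (i j k : Fin 6) : chi (P₂ i) (P₂ j) (P₂ k) = SignType.sign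
    ((X₂ j - X₂ i) * (Y₂ k - Y₂ i) - (Y₂ j - Y₂ i) * (X₂ k - X₂ i)) := by
  rw [chi_eq, coords₂ i, coords₂ j, coords₂ k]
  unfold det3
  simp only
  rw [← _root_.sign_intCast (α := ℝ)]
  push_cast
  rfl

theorem inj₂ : Function.Injective P₂ := by
  have h : ∀ i j, X₂ i = X₂ j → Y₂ i = Y₂ j → i = j := by decide
  intro i j hij
  rw [coords₂ i, coords₂ j, Complex.mk.injEq] at hij
  exact h i j (by exact_mod_cast hij.1) (by exact_mod_cast hij.2)

theorem spanning₂ : Spanning (range P₂) := by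
  refine ⟨P₂ 0, ⟨0, rfl⟩, P₂ 1, ⟨1, rfl⟩, P₂ 2, ⟨2, rfl⟩, fun h => ?_⟩
  rw [collinear_iff_of_mem (show P₂ 0 ∈ ({P₂ 0, P₂ 1, P₂ 2} : Set ℂ) by simp)] at h
  obtain ⟨v, hv⟩ := h
  obtain ⟨r, hr⟩ := hv (P₂ 1) (by simp)
  obtain ⟨s, hs⟩ := hv (P₂ 2) (by simp)
  simp only [P₂, Matrix.cons_val] at hr hs
  have h1 := congrArg Complex.re hr
  have h2 := congrArg Complex.im hr
  have h3 := congrArg Complex.re hs
  have h4 := congrArg Complex.im hs
  simp at h1 h2 h3 h4
  rcases h2 with h2 | h2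
  · rw [h2] at h1
    norm_num at h1
  · rw [h2] at h4
    norm_num at h4

theorem same : SameOrientedMatroid (range P₁) (range P₂) := by
  refine ⟨(Equiv.ofInjective P₁ inj₁).symm.trans (Equiv.ofInjective P₂ inj₂), ?_⟩
  have key : ∀ i j k : Fin 6, chi (P₂ i) (P₂ j) (P₂ k) = chi (P₁ i) (P₁ j) (P₁ k) := by
    intro i j k
    rw [chi₁, chi₂]
    revert i j k
    decide
  intro a b c
  obtain ⟨i, rfl⟩ := (Equiv.ofInjective P₁ inj₁).surjective a
  obtain ⟨j, rfl⟩ := (Equiv.ofInjective P₁ inj₁).surjective b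
  obtain ⟨k, rfl⟩ := (Equiv.ofInjective P₁ inj₁).surjective c
  simp only [Equiv.trans_apply, Equiv.symm_apply_apply]
  exact key i j k

/-- **The conjecture fails.** The sets `{0, 6, 6i, 3+3i, 3i, 3}` (the vertices and the midpoints of
the sides of a triangle) and `{0, 6, 6i, 3+3i, 3i, 4}` have the same oriented matroid, but the face
lattices of the cones of non-negative polygonal measures are not isomorphic. -/
theorem result :
    ((range P₁).Finite ∧ (range P₂).Finite ∧ Spanning (range P₁) ∧ Spanning (range P₂) ∧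
      SameOrientedMatroid (range P₁) (range P₂) ∧
      ¬ Nonempty (FaceLattice (Kpos (range P₁)) ≃o FaceLattice (Kpos (range P₂)))) ∧
    ¬ ∀ S S' : Set ℂ, S.Finite → S'.Finite → Spanning S → Spanning S' →
      SameOrientedMatroid S S' → Nonempty (FaceLattice (Kpos S) ≃o FaceLattice (Kpos S')) := by
  have h1 := Set.finite_range P₁
  have h2 := Set.finite_range P₂
  have h3 := not_iso C₁.poly C₂.poly irred (by norm_num)
  exact ⟨⟨h1, h2, spanning₁, spanning₂, same, h3⟩,
    fun h => h3 (h _ _ h1 h2 spanning₁ spanning₂ same)⟩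

end examples

end Pool.Agent.Results.MP_41af23_an.CevaSextuple
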